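import Pool.Agent.V11106.LB.Main

/-!
# Shares of distinguished classes on products with surfaces with algebraic cohomology
-/

open CategoryTheory AlgebraicGeometry

universe u v

namespace Pool.Agent.V11106.SH

open Pool.Agent.H914 VarClass Obj WeilCohomology Pool.Agent.TH133.PW Module
  Pool.Agent.V11106.LB

variable {k : Type u} [Field k] {𝒱 : VarClass k} {ops : CycleOps 𝒱}
  {W : WeilCohomology.{u, v} ops} {X Y S T : 𝒱.Obj}

lemma rat_of' {N : ℕ} (h : IsRationalSurface W T N) :
    ∃ (e f : Fin N → T.Cycles) (o : T.Cycles), Rat W T e f o := by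
  obtain ⟨h1, e, f, o, h2, h3, h4, h5, h6⟩ := h
  exact ⟨e, f, o, ⟨h1, h2, h3, h4, h5, h6⟩⟩

section rat

variable {N : ℕ} {e f : Fin N → T.Cycles} {o : T.Cycles} (hT : Rat W T e f o)
include hT

/-- Many classes on the product. -/
lemma le_finrank {V : Submodule W.K (W.H S)} {TY : Submodule W.K (W.H (S.prod T))}
    (h : ∀ i, ∀ x ∈ V, iota W S (e i) x ∈ TY) : N * finrank W.K V ≤ finrank W.K TY := by
  have h1 : LinearMap.range (big W S e V) ≤ TY := by
    rintro _ ⟨x, rfl⟩
    rw [big_apply]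
    exact Submodule.sum_mem _ fun i _ => h i _ (x i).2
  have h2 := Submodule.finrank_mono h1
  rw [LinearMap.finrank_range_of_inj (hT.big_inj _), Module.finrank_pi_fintype] at h2
  simpa only [Finset.sum_const, Finset.card_univ, Fintype.card_fin, smul_eq_mul] using h2

/-- Not too many classes on the product. -/
lemma finrank_le {Z : Submodule W.K (W.H S)} {AY : Submodule W.K (W.H (S.prod T))}
    (h : ∀ i, ∀ y ∈ AY, pi W S (f i) y ∈ Z) :
    finrank W.K AY ≤ N * finrank W.K Z + 2 * finrank W.K (W.H S) := by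
  let P : Submodule W.K ((Fin N → W.H S) × (W.H S × W.H S)) :=
    (Submodule.pi Set.univ fun _ => Z).prod ⊤
  have h1 : AY.map (comps W S f o) ≤ P := by
    rintro _ ⟨y, hy, rfl⟩
    refine ⟨?_, Submodule.mem_top⟩
    intro j _
    exact h j y hy
  have h2 : finrank W.K ↥(AY.map (comps W S f o)) = finrank W.K AY :=
    (Submodule.equivMapOfInjective _ hT.comps_inj _).finrank_eq.symm
  have h3 := Submodule.finrank_mono h1
  rw [h2] at h3
  refine h3.trans ?_
  have h4 : finrank W.K P ≤ finrank W.K ((Fin N → Z) × (W.H S × W.H S)) := by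
    let g : P →ₗ[W.K] (Fin N → Z) × (W.H S × W.H S) :=
      { toFun := fun p => (fun i => ⟨p.1.1 i, p.2.1 i (Set.mem_univ i)⟩, p.1.2)
        map_add' := fun _ _ => rfl
        map_smul' := fun _ _ => rfl }
    apply LinearMap.finrank_le_finrank_of_injective (f := g)
    intro p q hpq
    apply Subtype.ext
    apply Prod.ext
    · funext i
      exact congrArg (fun r => ((r.1 i : Z) : W.H S)) hpq
    · exact congrArg (fun r => r.2) hpq
  rw [Module.finrank_prod, Module.finrank_prod, Module.finrank_pi_fintype] at h4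
  simp only [Finset.sum_const, Finset.card_univ, Fintype.card_fin, smul_eq_mul] at h4
  linarith [h4]

end rat

/-- the numerical argument -/
lemma share_num {θ v z b : ℝ} (hlt : z < θ * v) (hb : 0 ≤ b)
    {N B tY aY bY : ℝ} (hB : 0 ≤ B)
    (hN : N = B + 4 * (b + 1) / (θ * v - z) + 1) (hθ : 0 ≤ θ) (h1 : N * v ≤ tY)
    (h2 : aY ≤ N * z + 2 * b) (h3 : bY ≤ (N + 2) * b)
    (h4 : θ * tY ≤ aY + (θ * v - z) / (4 * (b + 1)) * bY) : False := by
  set δ := θ * v - z with hδ
  have hδ0 : 0 < δ := by rw [hδ]; linarith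
  have hN0 : 0 ≤ N := by rw [hN]; positivity
  have h5 : δ / (4 * (b + 1)) * bY ≤ δ / (4 * (b + 1)) * ((N + 2) * b) :=
    mul_le_mul_of_nonneg_left h3 (by positivity)
  have h6 : δ / (4 * (b + 1)) * ((N + 2) * b) ≤ δ / 4 * (N + 2) := by
    rw [div_mul_eq_mul_div, div_mul_eq_mul_div, div_le_div_iff₀ (by positivity) (by norm_num)]
    have : 0 ≤ δ * (N + 2) := by positivity
    nlinarith
  have h7 : θ * (N * v) ≤ θ * tY := mul_le_mul_of_nonneg_left h1 hθ
  have h8 : N * δ ≤ 2 * b + δ / 4 * (N + 2) := by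
    have : N * δ = θ * (N * v) - N * z := by rw [hδ]; ring
    linarith
  have h9 : 4 * (b + 1) + δ ≤ N * δ := by
    have h10 : N * δ = B * δ + 4 * (b + 1) + δ := by
      rw [hN]
      field_simp
    rw [h10]
    have : 0 ≤ B * δ := by positivity
    linarith
  nlinarith

/-- **The principle.** An inequality up to errors which are `o(b)` on the products of `S` with the
surfaces gives the exact inequality on `S`. -/
theorem share_principle (hT : HasRationalSurfaces W) {m : ℕ} {V Z : Submodule W.K (W.H S)}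
    {θ : ℝ} (hθ : 0 ≤ θ)
    (h : ∀ ε : ℝ, 0 < ε → ∃ B : ℕ, ∀ (T : 𝒱.Obj), T.dim = 2 →
      B ≤ W.betti (S.prod T) (m + 2) →
      ∃ TY AY : Submodule W.K (W.H (S.prod T)), TY ≤ W.gr (S.prod T) (m + 2) ∧
        (∀ e : T.Cycles, T.IsCyc 1 e → ∀ x ∈ V, iota W S e x ∈ TY) ∧
        (∀ f : T.Cycles, T.IsCyc 1 f → ∀ y ∈ AY, pi W S f y ∈ Z) ∧
        θ * finrank W.K TY ≤ finrank W.K AY + ε * W.betti (S.prod T) (m + 2))
    (hV : V ≤ W.gr S m) : θ * finrank W.K V ≤ finrank W.K Z := by
  by_contra hlt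
  push Not at hlt
  set b := finrank W.K (W.H S) with hb
  have hδ : 0 < θ * finrank W.K V - finrank W.K Z := by linarith
  obtain ⟨B, hB⟩ := h ((θ * finrank W.K V - finrank W.K Z) / (4 * (b + 1))) (by positivity)
  have hv : 1 ≤ finrank W.K V := by
    rcases Nat.eq_zero_or_pos (finrank W.K V) with h0 | h0
    · rw [h0] at hlt
      have : (0 : ℝ) ≤ finrank W.K Z := by positivity
      simp at hlt
      linarith
    · exact h0
  obtain ⟨N, hN⟩ : ∃ N : ℕ, (B : ℝ) + 4 * (b + 1) / (θ * finrank W.K V - finrank W.K Z) + 1 ≤ N :=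
    exists_nat_ge _
  obtain ⟨T, hTN⟩ := hT N
  obtain ⟨e, f, o, hR⟩ := rat_of' hTN
  -- the Betti number is large
  have hbet : N ≤ W.betti (S.prod T) (m + 2) := by
    have h1 : N * finrank W.K V ≤ finrank W.K (W.gr (S.prod T) (m + 2)) := by
      refine le_finrank hR fun i x hx => ?_
      rw [iota_apply]
      have := W.mul_mem (W.map_mem (snd S T) (W.cl_mem (hR.he i)))
        (W.map_mem (fst S T) (hV hx))
      rwa [show 2 * 1 + m = m + 2 by omega] at this
    exact (Nat.le_mul_of_pos_right N hv).trans h1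
  have hBN : B ≤ N := by
    have h1 : (0 : ℝ) ≤ 4 * (b + 1) / (θ * finrank W.K V - finrank W.K Z) := by positivity
    have h2 : (B : ℝ) ≤ N := by linarith
    exact_mod_cast h2
  obtain ⟨TY, AY, hTY, h1, h2, h3⟩ := hB T hR.dim (hBN.trans hbet)
  have h4 := le_finrank hR (V := V) (TY := TY) fun i x hx => h1 _ (hR.he i) x hx
  have h5 := finrank_le hR (Z := Z) (AY := AY) fun i y hy => h2 _ (hR.hf i) y hy
  have h6 : W.betti (S.prod T) (m + 2) ≤ (N + 2) * b :=
    (Submodule.finrank_le _).trans (hR.finrank_le (S := S))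
  refine share_num (θ := θ) (v := finrank W.K V) (z := finrank W.K Z) (b := b)
    (N := N) (B := N - 4 * (b + 1) / (θ * finrank W.K V - finrank W.K Z) - 1)
    (tY := finrank W.K TY) (aY := finrank W.K AY) (bY := W.betti (S.prod T) (m + 2))
    hlt (by positivity) ?_ (by ring) hθ (by exact_mod_cast h4) ?_ ?_ h3
  · have : (0 : ℝ) ≤ B := by positivity
    linarith
  · exact_mod_cast h5
  · exact_mod_cast h6

/-- Pull-backs of divisors times pull-backs. -/
lemma iota_eq (e : T.Cycles) (x : W.H S) :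
    iota W S e x = W.map (snd S T) (W.cl T e) * W.map (fst S T) x := iota_apply e x

/-- Algebraic classes are mapped to algebraic classes. -/
lemma pi_span {f : T.Cycles} (hdim : T.dim = 2) (hf : T.IsCyc 1 f) {r : ℕ}
    {y : W.H (S.prod T)} (hy : y ∈ spanCycles W (S.prod T) ((r + 1 : ℕ) : ℤ)) :
    pi W S f y ∈ spanCycles W S (r : ℤ) := by
  induction hy using Submodule.span_induction with
  | mem y hy =>
    obtain ⟨p, hp, z, hz, rfl⟩ := hy
    obtain rfl : p = r + 1 := by exact_mod_cast hp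
    rw [pi_apply, ← W.cl_pull]
    have h1 : W.cl (S.prod T) (ops.pull (snd S T) f) * W.cl (S.prod T) z =
        W.cl (S.prod T) (ops.mul (ops.pull (snd S T) f) z) := (W.cl_mul _ _).symm
    rw [h1, ← W.cl_push]
    refine Submodule.subset_span ⟨r, rfl, _, ops.push_mem _
      (ops.mul_mem (ops.pull_mem _ hf) hz) ?_, rfl⟩
    simp only [dim_prod]
    omega
  | zero => rw [map_zero]; exact Submodule.zero_mem _
  | add x y _ _ hx hy => rw [map_add]; exact Submodule.add_mem _ hx hy
  | smul a x _ hx => rw [map_smul]; exact Submodule.smul_mem _ _ hx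

end Pool.Agent.V11106.SH
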