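import Pool.Agent.V11106.SH.ActDefs
import Pool.Agent.V11106.SH.Engine

/-!
# Tate classes up to errors which are small compared with the Betti number
-/

open CategoryTheory AlgebraicGeometry

universe u v w

namespace Pool.Agent.V11106.SH

open Pool.Agent.H914 VarClass Obj WeilCohomology Module Pool.Agent.V11106.LB

variable {k : Type u} [Field k] {𝒱 : VarClass k} {ops : CycleOps 𝒱}
  {W : WeilCohomology.{u, v} ops} {Γ : Type w} {X Y S T : 𝒱.Obj}

/-- The action on the classes `x × e`. -/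
lemma act_iota (G : GaloisLike W Γ) {p : ℕ} {e : T.Cycles} (he : T.IsCyc p e) (g : Γ)
    (x : W.H S) :
    G.ρ (S.prod T) g (iota W S e x) = G.χ g ^ p • iota W S e (G.ρ S g x) := by
  rw [iota_apply, iota_apply, map_mul, G.map, G.map, (G.act T).cl_act g p _ ⟨e, he, rfl⟩,
    map_smul, smul_mul_assoc]

lemma iota_tate (G : GaloisLike W Γ) {e : T.Cycles} (he : T.IsCyc 1 e) {r : ℕ} {x : W.H S}
    (hx : x ∈ tate G S r) : iota W S e x ∈ tate G (S.prod T) (r + 1) := by
  refine ⟨?_, fun g => ?_⟩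
  · rw [iota_apply]
    have := W.mul_mem (W.map_mem (snd S T) (W.cl_mem he)) (W.map_mem (fst S T) hx.1)
    rwa [show 2 * 1 + 2 * r = 2 * (r + 1) by ring] at this
  · rw [act_iota G he, hx.2 g, map_smul, smul_smul, pow_one, pow_succ']

lemma spanCycles_le_tate (G : GaloisLike W Γ) (r : ℕ) : spanCycles W X r ≤ tate G X r := by
  refine Submodule.span_le.2 ?_
  rintro _ ⟨p, hp, z, hz, rfl⟩
  obtain rfl : p = r := by exact_mod_cast hp
  exact ⟨W.cl_mem hz, fun g => (G.act X).cl_act g p _ ⟨z, hz, rfl⟩⟩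

/-- From dimension `n + 2` to dimension `n`. -/
theorem share_of_sublinear (hT : HasRationalSurfaces W) (G : GaloisLike W Γ) {θ : ℝ}
    (hθ : 0 ≤ θ) {n r : ℕ} (h : ShareUpToSublinear G θ (n + 2) (r + 1)) : Share G θ n r := by
  intro S hS
  refine share_principle (m := 2 * r) hT hθ (fun ε hε => ?_) (fun x hx => hx.1)
  obtain ⟨B, hB⟩ := h ε hε
  refine ⟨B, fun T hT2 hb => ⟨tate G (S.prod T) (r + 1), spanCycles W (S.prod T) ((r + 1 : ℕ) : ℤ),
    fun x hx => ?_, fun e he x hx => iota_tate G he hx, fun f hf y hy => pi_span hT2 hf hy, ?_⟩⟩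
  · have := hx.1
    rwa [show 2 * (r + 1) = 2 * r + 2 by ring] at this
  · have h1 := hB (S.prod T) (by rw [dim_prod, hS, hT2]) hb
    exact h1

lemma tateIn_of_share (G : GaloisLike W Γ) {n r : ℕ} (h : Share G 1 n r) : TateIn G n r := by
  intro X hX
  have h1 := h X hX
  rw [one_mul] at h1
  have h2 : tateDim G X r ≤ algDim W X r := by exact_mod_cast h1
  exact (Submodule.eq_of_le_of_finrank_le (spanCycles_le_tate G r) h2).ge

lemma share_of_tateIn (G : GaloisLike W Γ) {n r : ℕ} (h : TateIn G n r) : BoundedDefect G n r :=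
  ⟨0, fun X hX => by
    rw [add_zero]
    exact Submodule.finrank_mono (h X hX)⟩

lemma sublinear_of_bounded (G : GaloisLike W Γ) {n r : ℕ} (h : BoundedDefect G n r) :
    ShareUpToSublinear G 1 n r := by
  obtain ⟨D, hD⟩ := h
  intro ε hε
  refine ⟨⌈D / ε⌉₊, fun X hX hb => ?_⟩
  have h1 : (D : ℝ) / ε ≤ W.betti X (2 * r) := (Nat.le_ceil _).trans (by exact_mod_cast hb)
  rw [div_le_iff₀ hε] at h1
  have h2 : (tateDim G X r : ℝ) ≤ algDim W X r + D := by exact_mod_cast hD X hX
  rw [one_mul]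
  linarith

lemma sublinear_of_share (G : GaloisLike W Γ) {θ : ℝ} {n r : ℕ} (h : Share G θ n r) :
    ShareUpToSublinear G θ n r := by
  intro ε hε
  refine ⟨0, fun X hX _ => (h X hX).trans ?_⟩
  have : (0 : ℝ) ≤ ε * W.betti X (2 * r) := by positivity
  linarith

/-- **Tate classes up to errors which are `o(b)`.** -/
theorem tate_main (hT : HasRationalSurfaces W) (G : GaloisLike W Γ) :
    (∀ n r : ℕ, ShareUpToSublinear G 1 (n + 2) (r + 1) → TateIn G n r) ∧
    [∀ n r : ℕ, TateIn G n r, ∀ n r : ℕ, BoundedDefect G n r,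
      ∀ n r : ℕ, ShareUpToSublinear G 1 n r].TFAE ∧
    ∀ θ : ℝ, 0 ≤ θ → (∀ n r : ℕ, ShareUpToSublinear G θ (n + 2) (r + 1) → Share G θ n r) ∧
      ((∀ n r : ℕ, Share G θ n r) ↔ ∀ n r : ℕ, ShareUpToSublinear G θ n r) := by
  have h1 : ∀ n r : ℕ, ShareUpToSublinear G 1 (n + 2) (r + 1) → TateIn G n r :=
    fun n r h => tateIn_of_share G (share_of_sublinear hT G zero_le_one h)
  refine ⟨h1, ?_, fun θ hθ => ⟨fun n r h => share_of_sublinear hT G hθ h,
    fun h n r => sublinear_of_share G (h n r),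
    fun h n r => share_of_sublinear hT G hθ (h (n + 2) (r + 1))⟩⟩
  tfae_have 1 → 2 := fun h n r => share_of_tateIn G (h n r)
  tfae_have 2 → 3 := fun h n r => sublinear_of_bounded G (h n r)
  tfae_have 3 → 1 := fun h n r => h1 n r (h (n + 2) (r + 1))
  tfae_finish

end Pool.Agent.V11106.SH
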