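import Pool.Agent.V11106.SH.SemiDefs
import Pool.Agent.V11106.SH.Act

/-!
# Semisimplicity of Frobenius up to errors which are small compared with the Betti number
-/

open CategoryTheory AlgebraicGeometry Polynomial

universe u v w

namespace Pool.Agent.V11106.SH

open Pool.Agent.H914 VarClass Obj WeilCohomology Module Pool.Agent.V11106.LB

variable {k : Type u} [Field k] {𝒱 : VarClass k} {ops : CycleOps 𝒱}
  {W : WeilCohomology.{u, v} ops} {Γ : Type w} {X Y S T : 𝒱.Obj}

lemma act_injective (G : GaloisLike W Γ) (X : 𝒱.Obj) (g : Γ) :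
    Function.Injective (G.ρ X g) := by
  rw [injective_iff_map_eq_zero]
  intro x hx
  apply W.nondeg
  intro c
  have h1 := (G.act X).tr_act g (x * c)
  rw [map_mul, hx, zero_mul, map_zero] at h1
  exact (mul_eq_zero.1 h1.symm).resolve_left (pow_ne_zero _ ((G.act X).ne_zero g))

lemma act_surjective (G : GaloisLike W Γ) (X : 𝒱.Obj) (g : Γ) :
    Function.Surjective (G.ρ X g) := by
  have h1 : Function.Injective (G.ρ X g).toLinearMap := act_injective G X g
  exact LinearMap.injective_iff_surjective.1 h1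

/-- The action and the components of the classes on a product. -/
lemma act_pi (G : GaloisLike W Γ) (hdim : T.dim = 2) {f : T.Cycles} (hf : T.IsCyc 1 f) (g : Γ)
    (y : W.H (S.prod T)) :
    pi W S f (G.ρ (S.prod T) g y) = G.χ g • G.ρ S g (pi W S f y) := by
  have hχ := (G.act S).ne_zero g
  apply W.tr_ext
  intro c
  obtain ⟨c, rfl⟩ := act_surjective G S g c
  apply mul_left_cancel₀ hχ
  rw [pi_apply, W.tr_push, pi_apply, smul_mul_assoc, map_smul, smul_eq_mul, ← map_mul,
    (G.act S).tr_act, W.tr_push, ← smul_eq_mul (G.χ g), ← map_smul, ← smul_mul_assoc,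
    ← smul_mul_assoc]
  have h1 : G.χ g • W.map (snd S T) (W.cl T f) =
      G.ρ (S.prod T) g (W.map (snd S T) (W.cl T f)) := by
    rw [G.map, (G.act T).cl_act g 1 _ ⟨f, hf, rfl⟩, pow_one, map_smul]
  rw [h1, ← G.map, ← map_mul, ← map_mul, (G.act (S.prod T)).tr_act, dim_prod, hdim]
  ring

lemma pi_tate (G : GaloisLike W Γ) (hdim : T.dim = 2) {f : T.Cycles} (hf : T.IsCyc 1 f) {r : ℕ}
    {y : W.H (S.prod T)} (hy : y ∈ tate G (S.prod T) (r + 1)) :
    pi W S f y ∈ tate G S r := by
  refine ⟨?_, fun g => ?_⟩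
  · rw [pi_apply]
    have h1 := W.mul_mem (W.map_mem (snd S T) (W.cl_mem hf)) hy.1
    have h2 := W.push_mem (fst S T) h1
    rwa [show ((2 * 1 + 2 * (r + 1) : ℕ) : ℤ) + 2 * ((S.dim : ℤ) - (S.prod T).dim) =
      ((2 * r : ℕ) : ℤ) by rw [dim_prod, hdim]; push_cast; ring, grZ_natCast] at h2
  · have h1 := act_pi G hdim hf g y
    rw [hy.2 g, map_smul, pow_succ', mul_smul] at h1
    exact (smul_right_injective _ ((G.act S).ne_zero g) h1).symm

lemma frob_iota (G : GaloisLike W Unit) {e : T.Cycles} (he : T.IsCyc 1 e) (x : W.H S) :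
    frob G (S.prod T) (iota W S e x) = G.χ () • iota W S e (frob G S x) := by
  have h1 := act_iota G he () x
  rw [pow_one] at h1
  exact h1

lemma frob_sub_pow_iota (G : GaloisLike W Unit) {e : T.Cycles} (he : T.IsCyc 1 e) (r m : ℕ)
    (x : W.H S) :
    ((frob G (S.prod T) - algebraMap W.K _ (G.χ () ^ (r + 1))) ^ m) (iota W S e x) =
      G.χ () ^ m • iota W S e (((frob G S - algebraMap W.K _ (G.χ () ^ r)) ^ m) x) := by
  induction m with
  | zero => simp
  | succ m ih =>
    rw [pow_succ', Module.End.mul_apply, ih, pow_succ' (frob G S - _), Module.End.mul_apply,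
      map_smul, LinearMap.sub_apply, frob_iota G he, Module.algebraMap_end_apply,
      LinearMap.sub_apply, Module.algebraMap_end_apply, map_sub, map_smul, pow_succ', pow_succ',
      mul_smul, ← smul_sub, smul_smul, mul_comm, ← smul_smul]

lemma iota_gen (G : GaloisLike W Unit) {e : T.Cycles} (he : T.IsCyc 1 e) {r : ℕ} {x : W.H S}
    (hx : x ∈ genTate G S r) : iota W S e x ∈ genTate G (S.prod T) (r + 1) := by
  refine ⟨?_, ?_⟩
  · rw [iota_apply]
    have := W.mul_mem (W.map_mem (snd S T) (W.cl_mem he)) (W.map_mem (fst S T) hx.1)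
    rwa [show 2 * 1 + 2 * r = 2 * (r + 1) by ring] at this
  · have h1 := hx.2
    rw [SetLike.mem_coe, Module.End.mem_maxGenEigenspace] at h1 ⊢
    obtain ⟨m, hm⟩ := h1
    refine ⟨m, ?_⟩
    have h2 := frob_sub_pow_iota G he r m x
    have e1 : ∀ (Z : 𝒱.Obj) (c : W.K), frob G Z - c • 1 = frob G Z - algebraMap W.K _ c :=
      fun Z c => by rw [Algebra.algebraMap_eq_smul_one]
    rw [e1] at hm ⊢
    rw [h2, hm, map_zero, smul_zero]

lemma tate_le_gen (G : GaloisLike W Unit) (r : ℕ) : tate G X r ≤ genTate G X r := by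
  intro x hx
  refine ⟨hx.1, ?_⟩
  rw [SetLike.mem_coe, Module.End.mem_maxGenEigenspace]
  refine ⟨1, ?_⟩
  have h1 : frob G X x = G.χ () ^ r • x := hx.2 ()
  rw [pow_one, LinearMap.sub_apply, h1, LinearMap.smul_apply, Module.End.one_apply, sub_self]

/-- The multiplicity and the algebraic classes. -/
theorem tateAndSemisimple_of_sublinear (hT : HasRationalSurfaces W) (G : GaloisLike W Unit)
    {n r : ℕ} (h : MultiplicityUpToSublinear G (fun X => algDim W X (r + 1)) (n + 2) (r + 1)) :
    TateAndSemisimple G n r := by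
  intro S hS
  have h1 : (1 : ℝ) * finrank W.K (genTate G S r) ≤ finrank W.K (spanCycles W S r) := by
    refine share_principle (m := 2 * r) hT zero_le_one (fun ε hε => ?_) (fun x hx => hx.1)
    obtain ⟨B, hB⟩ := h ε hε
    refine ⟨B, fun T hT2 hb => ⟨genTate G (S.prod T) (r + 1),
      spanCycles W (S.prod T) ((r + 1 : ℕ) : ℤ), fun x hx => ?_,
      fun e he x hx => iota_gen G he hx, fun f hf y hy => pi_span hT2 hf hy, ?_⟩⟩
    · have := hx.1
      rwa [show 2 * (r + 1) = 2 * r + 2 by ring] at this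
    · have h2 := hB (S.prod T) (by rw [dim_prod, hS, hT2]) hb
      rw [one_mul]
      exact h2
  rw [one_mul] at h1
  have h2 : finrank W.K (genTate G S r) ≤ finrank W.K (spanCycles W S r) := by exact_mod_cast h1
  exact (Submodule.eq_of_le_of_finrank_le
    ((spanCycles_le_tate G r).trans (tate_le_gen G r)) h2).ge

/-- The multiplicity and the eigenspace. -/
theorem eigenvalueSemisimple_of_sublinear (hT : HasRationalSurfaces W) (G : GaloisLike W Unit)
    {n r : ℕ} (h : MultiplicityUpToSublinear G (fun X => tateDim G X (r + 1)) (n + 2) (r + 1)) :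
    EigenvalueSemisimple G n r := by
  intro S hS
  have h1 : (1 : ℝ) * finrank W.K (genTate G S r) ≤ finrank W.K (tate G S r) := by
    refine share_principle (m := 2 * r) hT zero_le_one (fun ε hε => ?_) (fun x hx => hx.1)
    obtain ⟨B, hB⟩ := h ε hε
    refine ⟨B, fun T hT2 hb => ⟨genTate G (S.prod T) (r + 1),
      tate G (S.prod T) (r + 1), fun x hx => ?_,
      fun e he x hx => iota_gen G he hx, fun f hf y hy => pi_tate G hT2 hf hy, ?_⟩⟩
    · have := hx.1
      rwa [show 2 * (r + 1) = 2 * r + 2 by ring] at this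
    · have h2 := hB (S.prod T) (by rw [dim_prod, hS, hT2]) hb
      rw [one_mul]
      exact h2
  rw [one_mul] at h1
  have h2 : finrank W.K (genTate G S r) ≤ finrank W.K (tate G S r) := by exact_mod_cast h1
  exact (Submodule.eq_of_le_of_finrank_le (tate_le_gen G r) h2).ge

lemma multiplicity_sublinear_of_bounded (G : GaloisLike W Unit) {d : 𝒱.Obj → ℕ} {n r : ℕ}
    (h : MultiplicityUpToBounded G d n r) : MultiplicityUpToSublinear G d n r := by
  obtain ⟨D, hD⟩ := h
  intro ε hε
  refine ⟨⌈D / ε⌉₊, fun X hX hb => ?_⟩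
  have h1 : (D : ℝ) / ε ≤ W.betti X (2 * r) := (Nat.le_ceil _).trans (by exact_mod_cast hb)
  rw [div_le_iff₀ hε] at h1
  have h2 : (multiplicity G X r : ℝ) ≤ d X + D := by exact_mod_cast hD X hX
  linarith

/-- **Tate and semisimplicity.** -/
theorem tateAndSemisimple_main (hT : HasRationalSurfaces W) (G : GaloisLike W Unit) :
    (∀ n r : ℕ, MultiplicityUpToSublinear G (fun X => algDim W X (r + 1)) (n + 2) (r + 1) →
      TateAndSemisimple G n r) ∧
    [∀ n r : ℕ, TateAndSemisimple G n r,
      ∀ n r : ℕ, MultiplicityUpToBounded G (fun X => algDim W X r) n r,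
      ∀ n r : ℕ, MultiplicityUpToSublinear G (fun X => algDim W X r) n r].TFAE := by
  refine ⟨fun n r h => tateAndSemisimple_of_sublinear hT G h, ?_⟩
  tfae_have 1 → 2 := fun h n r => ⟨0, fun X hX => by
    rw [add_zero]
    exact Submodule.finrank_mono (h n r X hX)⟩
  tfae_have 2 → 3 := fun h n r => multiplicity_sublinear_of_bounded G (h n r)
  tfae_have 3 → 1 := fun h n r => tateAndSemisimple_of_sublinear hT G (h (n + 2) (r + 1))
  tfae_finish

/-- **Semisimplicity of one eigenvalue.** -/
theorem eigenvalueSemisimple_main (hT : HasRationalSurfaces W) (G : GaloisLike W Unit) :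
    (∀ n r : ℕ, MultiplicityUpToSublinear G (fun X => tateDim G X (r + 1)) (n + 2) (r + 1) →
      EigenvalueSemisimple G n r) ∧
    [∀ n r : ℕ, EigenvalueSemisimple G n r,
      ∀ n r : ℕ, MultiplicityUpToBounded G (fun X => tateDim G X r) n r,
      ∀ n r : ℕ, MultiplicityUpToSublinear G (fun X => tateDim G X r) n r].TFAE := by
  refine ⟨fun n r h => eigenvalueSemisimple_of_sublinear hT G h, ?_⟩
  tfae_have 1 → 2 := fun h n r => ⟨0, fun X hX => by
    rw [add_zero]
    exact Submodule.finrank_mono (h n r X hX)⟩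
  tfae_have 2 → 3 := fun h n r => multiplicity_sublinear_of_bounded G (h n r)
  tfae_have 3 → 1 := fun h n r => eigenvalueSemisimple_of_sublinear hT G (h (n + 2) (r + 1))
  tfae_finish

end Pool.Agent.V11106.SH
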