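import Pool.Agent.V11106.SH.SocDefs
import Pool.Agent.V11106.SH.Semi

/-!
# Socles of Galois representations
-/

open CategoryTheory AlgebraicGeometry

universe u v w

namespace Pool.Agent.V11106.SH

open Pool.Agent.H914 VarClass Obj WeilCohomology Module Pool.Agent.V11106.LB

section Alg

variable {K A B : Type*} [Field K] [Ring A] [Algebra K A] [Ring B] [Algebra K B] {Γ : Type*}
  {ρ : Γ → (A →ₐ[K] A)} {υ : Γ → (B →ₐ[K] B)}

lemma StableUnder.inf {U V : Submodule K A} (hU : StableUnder ρ U) (hV : StableUnder ρ V) :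
    StableUnder ρ (U ⊓ V) := fun g x hx => ⟨hU g x hx.1, hV g x hx.2⟩

lemma StableUnder.sup {U V : Submodule K A} (hU : StableUnder ρ U) (hV : StableUnder ρ V) :
    StableUnder ρ (U ⊔ V) := by
  intro g x hx
  obtain ⟨a, ha, b, hb, rfl⟩ := Submodule.mem_sup.1 hx
  rw [map_add]
  exact Submodule.add_mem_sup (hU g a ha) (hV g b hb)

lemma semisimple_bot : SemisimpleSub ρ ⊥ := by
  refine ⟨fun g x hx => ?_, fun V hV hVs => ⟨⊥, le_rfl, ?_, ?_, ?_⟩⟩
  · rw [Submodule.mem_bot] at hx ⊢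
    rw [hx, map_zero]
  · intro g x hx
    rw [Submodule.mem_bot] at hx ⊢
    rw [hx, map_zero]
  · exact inf_bot_eq _
  · rw [sup_bot_eq]
    exact le_bot_iff.1 hV

/-- The image of a semisimple subspace. -/
lemma SemisimpleSub.image {c : Γ → K} (hc : ∀ g, c g ≠ 0) {φ : A →ₗ[K] B}
    (hφ : ∀ g x, φ (ρ g x) = c g • υ g (φ x)) {U : Submodule K A} (hU : SemisimpleSub ρ U) :
    SemisimpleSub υ (U.map φ) := by
  have hst : ∀ V, StableUnder ρ V → StableUnder υ (V.map φ) := by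
    rintro V hV g _ ⟨x, hx, rfl⟩
    have h1 : υ g (φ x) = φ ((c g)⁻¹ • ρ g x) := by
      rw [map_smul, hφ, smul_smul, inv_mul_cancel₀ (hc g), one_smul]
    rw [h1]
    exact ⟨_, V.smul_mem _ (hV g x hx), rfl⟩
  refine ⟨hst U hU.1, fun V hVU hV => ?_⟩
  have h0 : StableUnder ρ (U ⊓ V.comap φ) := by
    rintro g x ⟨hx, hx'⟩
    refine ⟨hU.1 g x hx, ?_⟩
    change φ (ρ g x) ∈ V
    rw [hφ]
    exact V.smul_mem _ (hV g _ hx')
  obtain ⟨V', hV'U, hV', h1, h2⟩ := hU.2 _ inf_le_left h0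
  refine ⟨V'.map φ, Submodule.map_mono hV'U, hst V' hV', ?_, ?_⟩
  · rw [Submodule.eq_bot_iff]
    rintro _ ⟨hy, x, hx, rfl⟩
    have h3 : x ∈ (U ⊓ V.comap φ) ⊓ V' := ⟨⟨hV'U hx, hy⟩, hx⟩
    rw [h1, Submodule.mem_bot] at h3
    rw [h3, map_zero]
  · have h3 : V = (U ⊓ V.comap φ).map φ := by
      apply le_antisymm
      · intro y hy
        obtain ⟨x, hx, rfl⟩ := hVU hy
        exact ⟨x, ⟨hx, hy⟩, rfl⟩
      · rintro _ ⟨x, hx, rfl⟩
        exact hx.2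
    nth_rewrite 1 [h3]
    rw [← Submodule.map_sup, h2]

/-- The sum of two semisimple subspaces. -/
lemma SemisimpleSub.sup {U₁ U₂ : Submodule K A} (h₁ : SemisimpleSub ρ U₁)
    (h₂ : SemisimpleSub ρ U₂) : SemisimpleSub ρ (U₁ ⊔ U₂) := by
  refine ⟨h₁.1.sup h₂.1, fun V hVU hV => ?_⟩
  obtain ⟨C₁, hC₁, hC₁s, h3, h4⟩ := h₁.2 (V ⊓ U₁) inf_le_right (hV.inf h₁.1)
  obtain ⟨C₂, hC₂, hC₂s, h5, h6⟩ := h₂.2 ((V ⊔ U₁) ⊓ U₂) inf_le_right ((hV.sup h₁.1).inf h₂.1)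
  refine ⟨C₁ ⊔ C₂, sup_le_sup hC₁ hC₂, hC₁s.sup hC₂s, ?_, ?_⟩
  · rw [Submodule.eq_bot_iff]
    rintro x ⟨hxV, hx⟩
    obtain ⟨a, ha, b, hb, rfl⟩ := Submodule.mem_sup.1 hx
    have hb0 : b = 0 := by
      have h7 : b ∈ ((V ⊔ U₁) ⊓ U₂) ⊓ C₂ := by
        refine ⟨⟨?_, hC₂ hb⟩, hb⟩
        have h8 : b = (a + b) + -a := by abel
        rw [h8]
        exact Submodule.add_mem_sup hxV (U₁.neg_mem (hC₁ ha))
      rwa [h5, Submodule.mem_bot] at h7
    subst hb0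
    have h7 : a + 0 ∈ (V ⊓ U₁) ⊓ C₁ := by
      refine ⟨⟨hxV, ?_⟩, ?_⟩
      · rw [add_zero]; exact hC₁ ha
      · rw [add_zero]; exact ha
    rwa [h3, Submodule.mem_bot] at h7
  · apply le_antisymm
    · exact sup_le hVU (sup_le_sup hC₁ hC₂)
    · have h7 : U₁ ≤ V ⊔ (C₁ ⊔ C₂) := by
        rw [← h4]
        exact sup_le (inf_le_left.trans le_sup_left) (le_sup_left.trans le_sup_right)
      refine sup_le h7 ?_
      rw [← h6]
      refine sup_le (inf_le_left.trans (sup_le le_sup_left h7)) (le_sup_right.trans le_sup_right)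

/-- The socle. -/
lemma exists_socle [Module.Finite K A] (U : Submodule K A) :
    ∃ Z ≤ U, SemisimpleSub ρ Z ∧ ∀ V ≤ U, SemisimpleSub ρ V → V ≤ Z := by
  obtain ⟨Z, ⟨hZU, hZ⟩, hmax⟩ := (wellFounded_gt (α := Submodule K A)).has_min
    {Z | Z ≤ U ∧ SemisimpleSub ρ Z} ⟨⊥, bot_le, semisimple_bot⟩
  refine ⟨Z, hZU, hZ, fun V hVU hV => ?_⟩
  by_contra hno
  refine hmax (Z ⊔ V) ⟨sup_le hZU hVU, hZ.sup hV⟩ ?_
  exact lt_of_le_of_ne le_sup_left fun h => hno (h ▸ le_sup_right)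

end Alg

variable {k : Type u} [Field k] {𝒱 : VarClass k} {ops : CycleOps 𝒱}
  {W : WeilCohomology.{u, v} ops} {Γ : Type w} {X Y S T : 𝒱.Obj}

lemma pi_gr (hdim : T.dim = 2) {f : T.Cycles} (hf : T.IsCyc 1 f) {i : ℕ}
    {y : W.H (S.prod T)} (hy : y ∈ W.gr (S.prod T) (i + 2)) : pi W S f y ∈ W.gr S i := by
  rw [pi_apply]
  have h1 := W.mul_mem (W.map_mem (snd S T) (W.cl_mem hf)) hy
  have h2 := W.push_mem (fst S T) h1
  rwa [show ((2 * 1 + (i + 2) : ℕ) : ℤ) + 2 * ((S.dim : ℤ) - (S.prod T).dim) =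
    ((i : ℕ) : ℤ) by rw [dim_prod, hdim]; push_cast; ring, grZ_natCast] at h2

/-- From dimension `n + 2` to dimension `n`. -/
theorem repSemisimple_of_sublinear (hT : HasRationalSurfaces W) (G : GaloisLike W Γ) {n i : ℕ}
    (h : SocleCodimSublinear G (n + 2) (i + 2)) : RepSemisimple G n i := by
  intro S hS
  obtain ⟨Z, hZU, hZ, hmax⟩ := exists_socle (ρ := G.ρ S) (W.gr S i)
  have h1 : (1 : ℝ) * finrank W.K (W.gr S i) ≤ finrank W.K Z := by
    refine share_principle (m := i) hT zero_le_one (fun ε hε => ?_) le_rfl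
    obtain ⟨B, hB⟩ := h ε hε
    refine ⟨B, fun T hT2 hb => ?_⟩
    obtain ⟨V, hVU, hV, hcod⟩ := hB (S.prod T) (by rw [dim_prod, hS, hT2]) hb
    refine ⟨W.gr (S.prod T) (i + 2), V, le_rfl, fun e he x hx => ?_, fun f hf y hy => ?_, ?_⟩
    · rw [iota_apply]
      have := W.mul_mem (W.map_mem (snd S T) (W.cl_mem he)) (W.map_mem (fst S T) hx)
      rwa [show 2 * 1 + i = i + 2 by omega] at this
    · refine hmax (V.map (pi W S f)) ?_ ?_ ⟨y, hy, rfl⟩
      · rintro _ ⟨z, hz, rfl⟩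
        exact pi_gr hT2 hf (hVU hz)
      · exact hV.image (fun g => (G.act S).ne_zero g) fun g x => act_pi G hT2 hf g x
    · rw [one_mul]
      exact hcod
  rw [one_mul] at h1
  have h2 : finrank W.K (W.gr S i) ≤ finrank W.K Z := by exact_mod_cast h1
  rw [← Submodule.eq_of_le_of_finrank_le hZU h2]
  exact hZ

/-- **Semisimplicity of the Galois representations.** -/
theorem repSemisimple_main (hT : HasRationalSurfaces W) (G : GaloisLike W Γ) :
    (∀ n i : ℕ, SocleCodimSublinear G (n + 2) (i + 2) → RepSemisimple G n i) ∧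
    [∀ n i : ℕ, RepSemisimple G n i, ∀ n i : ℕ, SocleCodimBounded G n i,
      ∀ n i : ℕ, SocleCodimSublinear G n i].TFAE := by
  refine ⟨fun n i h => repSemisimple_of_sublinear hT G h, ?_⟩
  tfae_have 1 → 2 := fun h n i => ⟨0, fun X hX => ⟨_, le_rfl, h n i X hX, by rw [add_zero]⟩⟩
  tfae_have 2 → 3 := by
    intro h n i ε hε
    obtain ⟨B, hB⟩ := h n i
    refine ⟨⌈B / ε⌉₊, fun X hX hb => ?_⟩
    obtain ⟨V, hVU, hV, hcod⟩ := hB X hX
    refine ⟨V, hVU, hV, hcod.trans ?_⟩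
    have h1 : B / ε ≤ (W.betti X i : ℝ) := (Nat.le_ceil _).trans (by exact_mod_cast hb)
    rw [div_le_iff₀ hε] at h1
    linarith
  tfae_have 3 → 1 := fun h n i => repSemisimple_of_sublinear hT G (h (n + 2) (i + 2))
  tfae_finish

end Pool.Agent.V11106.SH
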