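import Pool.Agent.V11106.SH.AHDefs
import Pool.Agent.V11106.SH.Soc

/-!
# Absolute Hodge classes up to errors which are small compared with the Betti number
-/

open CategoryTheory AlgebraicGeometry

universe u v w x

namespace Pool.Agent.V11106.SH

open Pool.Agent.H914 VarClass Obj WeilCohomology Module Pool.Agent.V11106.LB

variable {k : Type u} [Field k] {𝒱 : VarClass k} {ops : CycleOps 𝒱}

section pair

variable {V : WeilCohomology.{u, v} ops} {M N : ∀ X : 𝒱.Obj, ℕ → Submodule V.K (V.H X)}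

/-- The general principle for two families of subspaces. -/
theorem allIn_of_sublinear (hT : HasRationalSurfaces V) (hNM : ∀ X p, N X p ≤ M X p)
    (hM : ∀ X p, M X p ≤ V.gr X (2 * p))
    (hup : ∀ (S T : 𝒱.Obj) (e : T.Cycles), T.IsCyc 1 e → ∀ p, ∀ x ∈ M S p,
      iota V S e x ∈ M (S.prod T) (p + 1))
    (hdown : ∀ (S T : 𝒱.Obj) (f : T.Cycles), T.dim = 2 → T.IsCyc 1 f → ∀ p,
      ∀ y ∈ N (S.prod T) (p + 1), pi V S f y ∈ N S p)
    {n p : ℕ} (h : ExceedsSublinear V (fun X => finrank V.K (M X (p + 1)))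
      (fun X => finrank V.K (N X (p + 1))) (n + 2) (2 * (p + 1))) :
    ∀ X : 𝒱.Obj, X.dim = n → M X p ≤ N X p := by
  intro S hS
  have h1 : (1 : ℝ) * finrank V.K (M S p) ≤ finrank V.K (N S p) := by
    refine share_principle (m := 2 * p) hT zero_le_one (fun ε hε => ?_) (hM S p)
    obtain ⟨B, hB⟩ := h ε hε
    refine ⟨B, fun T hT2 hb => ⟨M (S.prod T) (p + 1), N (S.prod T) (p + 1), ?_,
      fun e he x hx => hup S T e he p x hx, fun f hf y hy => hdown S T f hT2 hf p y hy, ?_⟩⟩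
    · have := hM (S.prod T) (p + 1)
      rwa [show 2 * (p + 1) = 2 * p + 2 by ring] at this
    · rw [one_mul]
      exact hB (S.prod T) (by rw [dim_prod, hS, hT2]) hb
  rw [one_mul] at h1
  have h2 : finrank V.K (M S p) ≤ finrank V.K (N S p) := by exact_mod_cast h1
  exact (Submodule.eq_of_le_of_finrank_le (hNM S p) h2).ge

lemma exceedsSublinear_of_bounded {m l : 𝒱.Obj → ℕ} {n i : ℕ} (h : ExceedsBounded m l n) :
    ExceedsSublinear V m l n i := by
  obtain ⟨D, hD⟩ := h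
  intro ε hε
  refine ⟨⌈D / ε⌉₊, fun X hX hb => ?_⟩
  have h1 : (D : ℝ) / ε ≤ V.betti X i := (Nat.le_ceil _).trans (by exact_mod_cast hb)
  rw [div_le_iff₀ hε] at h1
  have h2 : (m X : ℝ) ≤ l X + D := by exact_mod_cast hD X hX
  linarith

theorem pair_main (hT : HasRationalSurfaces V) (hNM : ∀ X p, N X p ≤ M X p)
    (hM : ∀ X p, M X p ≤ V.gr X (2 * p))
    (hup : ∀ (S T : 𝒱.Obj) (e : T.Cycles), T.IsCyc 1 e → ∀ p, ∀ x ∈ M S p,
      iota V S e x ∈ M (S.prod T) (p + 1))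
    (hdown : ∀ (S T : 𝒱.Obj) (f : T.Cycles), T.dim = 2 → T.IsCyc 1 f → ∀ p,
      ∀ y ∈ N (S.prod T) (p + 1), pi V S f y ∈ N S p) :
    (∀ n p : ℕ, ExceedsSublinear V (fun X => finrank V.K (M X (p + 1)))
      (fun X => finrank V.K (N X (p + 1))) (n + 2) (2 * (p + 1)) →
      ∀ X : 𝒱.Obj, X.dim = n → M X p ≤ N X p) ∧
    [∀ n p : ℕ, ∀ X : 𝒱.Obj, X.dim = n → M X p ≤ N X p,
      ∀ n p : ℕ, ExceedsBounded (fun X => finrank V.K (M X p)) (fun X => finrank V.K (N X p)) n,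
      ∀ n p : ℕ, ExceedsSublinear V (fun X => finrank V.K (M X p))
        (fun X => finrank V.K (N X p)) n (2 * p)].TFAE := by
  refine ⟨fun n p h => allIn_of_sublinear hT hNM hM hup hdown h, ?_⟩
  tfae_have 1 → 2 := fun h n p => ⟨0, fun X hX => by
    rw [add_zero]
    exact Submodule.finrank_mono (h n p X hX)⟩
  tfae_have 2 → 3 := fun h n p => exceedsSublinear_of_bounded (h n p)
  tfae_have 3 → 1 := fun h n p => allIn_of_sublinear hT hNM hM hup hdown (h (n + 2) (p + 1))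
  tfae_finish

end pair

variable {S : Type w} {W : S → WeilCohomology.{u, v} ops}

section hodge

variable {V : WeilCohomology.{u, v} ops} {hdg : ∀ X : 𝒱.Obj, ℕ → Submodule V.K (V.H X)}

lemma hdg_iota (h : IsHodge V hdg) {X T : 𝒱.Obj} {e : T.Cycles} (he : T.IsCyc 1 e) {p : ℕ}
    {a : V.H X} (ha : a ∈ hdg X p) : iota V X e a ∈ hdg (X.prod T) (p + 1) := by
  rw [iota_apply, add_comm p 1]
  exact (h.like _).2.2 _ _ _ (h.map _ 1 1 rfl _ ((h.like T).2.1 _ _ he)) _ (h.map _ p p rfl _ ha)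

lemma hdg_pi (h : IsHodge V hdg) {X T : 𝒱.Obj} {f : T.Cycles} (hdim : T.dim = 2)
    (hf : T.IsCyc 1 f) {p : ℕ} {b : V.H (X.prod T)} (hb : b ∈ hdg (X.prod T) (p + 1)) :
    pi V X f b ∈ hdg X p := by
  rw [pi_apply]
  refine h.push (fst X T) (1 + (p + 1)) p ?_ _
    ((h.like _).2.2 _ _ _ (h.map _ 1 1 rfl _ ((h.like T).2.1 _ _ hf)) _ hb)
  rw [dim_prod, hdim]
  ring

end hodge

/-- The comparison for the classes `e × a`. -/
lemma c_iota {V : WeilCohomology.{u, v} ops} {E : Ambient.{u, x} 𝒱}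
    {c : ∀ X : 𝒱.Obj, ℕ → V.H X → E.R X} (h : IsRealization V E c) {X T : 𝒱.Obj}
    {e : T.Cycles} (he : T.IsCyc 1 e) {p : ℕ} {a : V.H X} (ha : a ∈ V.gr X (2 * p)) :
    c (X.prod T) (p + 1) (iota V X e a) =
      E.res (snd X T) (E.cl e) * E.res (fst X T) (c X p a) := by
  rw [iota_apply, add_comm p 1, (h.mul (X.prod T)).2 1 p _ (V.map_mem _ (V.cl_mem he)) _
    (V.map_mem _ ha)]
  have h1 : c (X.prod T) 1 (V.map (snd X T) (V.cl T e)) = E.res (snd X T) (c T 1 (V.cl T e)) :=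
    h.map (snd X T) 1 1 rfl _ (V.cl_mem he)
  have h2 : c (X.prod T) p (V.map (fst X T) a) = E.res (fst X T) (c X p a) :=
    h.map (fst X T) p p rfl _ ha
  rw [h1, h2, h.cl T 1 e he]

/-- The comparison for the components. -/
lemma c_pi {V : WeilCohomology.{u, v} ops} {E : Ambient.{u, x} 𝒱}
    {c : ∀ X : 𝒱.Obj, ℕ → V.H X → E.R X} (h : IsRealization V E c) {X T : 𝒱.Obj}
    {f : T.Cycles} (hdim : T.dim = 2) (hf : T.IsCyc 1 f) {p : ℕ} {b : V.H (X.prod T)}
    (hb : b ∈ V.gr (X.prod T) (2 * (p + 1))) :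
    c X p (pi V X f b) =
      E.gys (fst X T) (E.res (snd X T) (E.cl f) * c (X.prod T) (p + 1) b) := by
  rw [pi_apply]
  have h0 : V.map (snd X T) (V.cl T f) ∈ V.gr (X.prod T) (2 * 1) := V.map_mem _ (V.cl_mem hf)
  have h1 : c X p (V.push (fst X T) (V.map (snd X T) (V.cl T f) * b)) =
      E.gys (fst X T) (c (X.prod T) (1 + (p + 1)) (V.map (snd X T) (V.cl T f) * b)) := by
    refine h.push (fst X T) (1 + (p + 1)) p (by rw [dim_prod, hdim]; ring) _ ?_
    have := V.mul_mem h0 hb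
    rwa [← mul_add] at this
  have h2 : c (X.prod T) 1 (V.map (snd X T) (V.cl T f)) = E.res (snd X T) (c T 1 (V.cl T f)) :=
    h.map (snd X T) 1 1 rfl _ (V.cl_mem hf)
  rw [h1, (h.mul (X.prod T)).2 1 (p + 1) _ h0 _ hb, h2, h.cl T 1 f hf]

lemma abs_iota (Φ : HodgeFamily.{u, v, w, x} W) (s : S) {X T : 𝒱.Obj} {e : T.Cycles}
    (he : T.IsCyc 1 e) {p : ℕ} {a : (W s).H X} (ha : a ∈ absHodge Φ s X p) :
    iota (W s) X e a ∈ absHodge Φ s (X.prod T) (p + 1) := by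
  induction ha using Submodule.span_induction with
  | mem a ha =>
    refine Submodule.subset_span ⟨hdg_iota (Φ.hodge s) he ha.1, fun t => ?_⟩
    obtain ⟨b, hb, hbc⟩ := ha.2 t
    refine ⟨iota (W t) X e b, hdg_iota (Φ.hodge t) he hb, ?_⟩
    rw [c_iota (Φ.realization t) he (((Φ.hodge t).like _).1 _ hb),
      c_iota (Φ.realization s) he (((Φ.hodge s).like _).1 _ ha.1), hbc]
  | zero => rw [map_zero]; exact Submodule.zero_mem _
  | add a b _ _ ha hb => rw [map_add]; exact Submodule.add_mem _ ha hb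
  | smul c a _ ha => rw [map_smul]; exact Submodule.smul_mem _ _ ha

lemma abs_pi (Φ : HodgeFamily.{u, v, w, x} W) (s : S) {X T : 𝒱.Obj} {f : T.Cycles}
    (hdim : T.dim = 2) (hf : T.IsCyc 1 f) {p : ℕ} {a : (W s).H (X.prod T)}
    (ha : a ∈ absHodge Φ s (X.prod T) (p + 1)) : pi (W s) X f a ∈ absHodge Φ s X p := by
  induction ha using Submodule.span_induction with
  | mem a ha =>
    refine Submodule.subset_span ⟨hdg_pi (Φ.hodge s) hdim hf ha.1, fun t => ?_⟩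
    obtain ⟨b, hb, hbc⟩ := ha.2 t
    refine ⟨pi (W t) X f b, hdg_pi (Φ.hodge t) hdim hf hb, ?_⟩
    rw [c_pi (Φ.realization t) hdim hf (((Φ.hodge t).like _).1 _ hb),
      c_pi (Φ.realization s) hdim hf (((Φ.hodge s).like _).1 _ ha.1), hbc]
  | zero => rw [map_zero]; exact Submodule.zero_mem _
  | add a b _ _ ha hb => rw [map_add]; exact Submodule.add_mem _ ha hb
  | smul c a _ ha => rw [map_smul]; exact Submodule.smul_mem _ _ ha

lemma abs_le (Φ : HodgeFamily.{u, v, w, x} W) (s : S) (X : 𝒱.Obj) (p : ℕ) :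
    absHodge Φ s X p ≤ Φ.hdg s X p := Submodule.span_le.2 fun _ ha => ha.1

lemma alg_le_abs (Φ : HodgeFamily.{u, v, w, x} W) (s : S) (X : 𝒱.Obj) (p : ℕ) :
    spanCycles (W s) X (p : ℤ) ≤ absHodge Φ s X p := by
  refine Submodule.span_le.2 ?_
  rintro _ ⟨q, hq, z, hz, rfl⟩
  obtain rfl : q = p := by exact_mod_cast hq
  refine Submodule.subset_span ⟨((Φ.hodge s).like X).2.1 _ _ hz, fun t =>
    ⟨_, ((Φ.hodge t).like X).2.1 _ _ hz, ?_⟩⟩
  rw [(Φ.realization t).cl X _ _ hz, (Φ.realization s).cl X _ _ hz]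

/-- **Hodge classes and absolute Hodge classes.** -/
theorem hodge_main (Φ : HodgeFamily.{u, v, w, x} W) (s : S) (hT : HasRationalSurfaces (W s)) :
    (∀ n p : ℕ, HodgeSublinear Φ s (n + 2) (p + 1) → HodgeIsAbsolute Φ s n p) ∧
    [∀ n p : ℕ, HodgeIsAbsolute Φ s n p, ∀ n p : ℕ, HodgeBounded Φ s n p,
      ∀ n p : ℕ, HodgeSublinear Φ s n p].TFAE :=
  pair_main (M := Φ.hdg s) (N := absHodge Φ s) hT (fun X p => abs_le Φ s X p)
    (fun X p => ((Φ.hodge s).like X).1 p)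
    (fun _ _ _ he _ _ hx => hdg_iota (Φ.hodge s) he hx)
    (fun _ _ _ hdim hf _ _ hy => abs_pi Φ s hdim hf hy)

/-- **Absolute Hodge classes and algebraic classes.** -/
theorem absHodge_main (Φ : HodgeFamily.{u, v, w, x} W) (s : S)
    (hT : HasRationalSurfaces (W s)) :
    (∀ n p : ℕ, AbsoluteSublinear Φ s (n + 2) (p + 1) → AbsoluteIsAlgebraic Φ s n p) ∧
    [∀ n p : ℕ, AbsoluteIsAlgebraic Φ s n p, ∀ n p : ℕ, AbsoluteBounded Φ s n p,
      ∀ n p : ℕ, AbsoluteSublinear Φ s n p].TFAE :=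
  pair_main (M := absHodge Φ s) (N := fun X p => spanCycles (W s) X (p : ℤ)) hT
    (fun X p => alg_le_abs Φ s X p)
    (fun X p => (abs_le Φ s X p).trans (((Φ.hodge s).like X).1 p))
    (fun _ _ _ he _ _ hx => abs_iota Φ s he hx)
    (fun _ _ _ hdim hf _ _ hy => pi_span hdim hf hy)

end Pool.Agent.V11106.SH
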