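import Pool.Agent.V11106.SH.AH

/-!
# Hodge classes for two embeddings, and several comparison theories
-/

open CategoryTheory AlgebraicGeometry

universe u v w x y

namespace Pool.Agent.V11106.SH

open Pool.Agent.H914 VarClass Obj WeilCohomology Module Pool.Agent.V11106.LB

section Alg

variable {K A ι : Type*} [Field K] [Ring A] [Algebra K A]

/-- The elements of `U` with all the properties `P j`, for `j` in `J`. -/
def condSet (U : Submodule K A) (J : Set ι) (P : ι → A → Prop) : Set A :=
  {a | a ∈ U ∧ ∀ j ∈ J, P j a}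

/-- The span of these elements. -/
def condSpan (U : Submodule K A) (J : Set ι) (P : ι → A → Prop) : Submodule K A :=
  Submodule.span K (condSet U J P)

end Alg

variable {k : Type u} [Field k] {𝒱 : VarClass k} {ops : CycleOps 𝒱}

section pairs

variable {S : Type w} {W : S → WeilCohomology.{u, v} ops}

/-- The span of the classes which are Hodge classes for the theory `W s` and whose image in `R X` is
the image of a Hodge class for the theory `W t` (for `K = ℚ` they form a subspace). -/
def hodgeBoth (Φ : HodgeFamily.{u, v, w, x} W) (s t : S) (X : 𝒱.Obj) (p : ℕ) :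
    Submodule (W s).K ((W s).H X) :=
  absSpan (Φ.hdg s X p) (Φ.c s X p) (fun _ : Unit => HodgeFor Φ X p t)

/-- The dimension of this span. -/
noncomputable def bothDim (Φ : HodgeFamily.{u, v, w, x} W) (s t : S) (X : 𝒱.Obj) (p : ℕ) : ℕ :=
  finrank (W s).K (hodgeBoth Φ s t X p)

/-- On all varieties of dimension `n` all Hodge classes of codimension `p` for `W s` are
(combinations of) classes which become Hodge classes for `W t`. -/
def HodgeTransfers (Φ : HodgeFamily.{u, v, w, x} W) (s t : S) (n p : ℕ) : Prop :=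
  ∀ X : 𝒱.Obj, X.dim = n → Φ.hdg s X p ≤ hodgeBoth Φ s t X p

/-- The same up to a bounded error of the dimensions. -/
def TransfersBounded (Φ : HodgeFamily.{u, v, w, x} W) (s t : S) (n p : ℕ) : Prop :=
  ExceedsBounded (fun X => hodgeDim Φ s X p) (fun X => bothDim Φ s t X p) n

/-- The same up to an error of the dimensions which is `o(b)`, where `b` is the Betti number
`b_(2 p)`. -/
def TransfersSublinear (Φ : HodgeFamily.{u, v, w, x} W) (s t : S) (n p : ℕ) : Prop :=
  ExceedsSublinear (W s) (fun X => hodgeDim Φ s X p) (fun X => bothDim Φ s t X p) n (2 * p)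

lemma both_le (Φ : HodgeFamily.{u, v, w, x} W) (s t : S) (X : 𝒱.Obj) (p : ℕ) :
    hodgeBoth Φ s t X p ≤ Φ.hdg s X p := Submodule.span_le.2 fun _ ha => ha.1

lemma both_pi (Φ : HodgeFamily.{u, v, w, x} W) (s t : S) {X T : 𝒱.Obj} {f : T.Cycles}
    (hdim : T.dim = 2) (hf : T.IsCyc 1 f) {p : ℕ} {a : (W s).H (X.prod T)}
    (ha : a ∈ hodgeBoth Φ s t (X.prod T) (p + 1)) : pi (W s) X f a ∈ hodgeBoth Φ s t X p := by
  induction ha using Submodule.span_induction with
  | mem a ha =>
    refine Submodule.subset_span ⟨hdg_pi (Φ.hodge s) hdim hf ha.1, fun _ => ?_⟩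
    obtain ⟨b, hb, hbc⟩ := ha.2 ()
    refine ⟨pi (W t) X f b, hdg_pi (Φ.hodge t) hdim hf hb, ?_⟩
    rw [c_pi (Φ.realization t) hdim hf (((Φ.hodge t).like _).1 _ hb),
      c_pi (Φ.realization s) hdim hf (((Φ.hodge s).like _).1 _ ha.1), hbc]
  | zero => rw [map_zero]; exact Submodule.zero_mem _
  | add a b _ _ ha hb => rw [map_add]; exact Submodule.add_mem _ ha hb
  | smul c a _ ha => rw [map_smul]; exact Submodule.smul_mem _ _ ha

/-- **Two embeddings.** -/
theorem transfer_pair (Φ : HodgeFamily.{u, v, w, x} W) (s t : S)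
    (hT : HasRationalSurfaces (W s)) :
    (∀ n p : ℕ, TransfersSublinear Φ s t (n + 2) (p + 1) → HodgeTransfers Φ s t n p) ∧
    [∀ n p : ℕ, HodgeTransfers Φ s t n p, ∀ n p : ℕ, TransfersBounded Φ s t n p,
      ∀ n p : ℕ, TransfersSublinear Φ s t n p].TFAE :=
  pair_main (M := Φ.hdg s) (N := hodgeBoth Φ s t) hT (fun X p => both_le Φ s t X p)
    (fun X p => ((Φ.hodge s).like X).1 p)
    (fun _ _ _ he _ _ hx => hdg_iota (Φ.hodge s) he hx)
    (fun _ _ _ hdim hf _ _ hy => both_pi Φ s t hdim hf hy)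

/-- **All pairs of embeddings.** -/
theorem transfer_main (Φ : HodgeFamily.{u, v, w, x} W) (hT : ∀ s, HasRationalSurfaces (W s)) :
    (∀ (s t : S) (n p : ℕ), TransfersSublinear Φ s t (n + 2) (p + 1) →
      HodgeTransfers Φ s t n p) ∧
    [∀ (s t : S) (n p : ℕ), HodgeTransfers Φ s t n p,
      ∀ (s t : S) (n p : ℕ), TransfersBounded Φ s t n p,
      ∀ (s t : S) (n p : ℕ), TransfersSublinear Φ s t n p].TFAE := by
  refine ⟨fun s t => (transfer_pair Φ s t (hT s)).1, ?_⟩
  tfae_have 1 → 2 := fun h s t => ((transfer_pair Φ s t (hT s)).2.out 0 1).1 (h s t)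
  tfae_have 2 → 3 := fun h s t => ((transfer_pair Φ s t (hT s)).2.out 1 2).1 (h s t)
  tfae_have 3 → 1 := fun h s t => ((transfer_pair Φ s t (hT s)).2.out 2 0).1 (h s t)
  tfae_finish

end pairs

/-- A family of theories `W s` (the Betti cohomology of the conjugates of the varieties by the
automorphisms `s` of the complex numbers) with Hodge classes, and with comparisons with several
theories of rings, indexed by `l` (the algebraic de Rham cohomology, and the `ℓ`-adic cohomology
for all primes `ℓ`). -/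
structure ComparedHodge {S : Type w} (W : S → WeilCohomology.{u, v} ops) (L : Type y) where
  /-- the Hodge classes -/
  hdg : ∀ (s : S) (X : 𝒱.Obj), ℕ → Submodule (W s).K ((W s).H X)
  /-- the rings -/
  E : L → Ambient.{u, x} 𝒱
  /-- the comparisons -/
  c : ∀ (l : L) (s : S) (X : 𝒱.Obj), ℕ → (W s).H X → (E l).R X
  hodge : ∀ s, IsHodge (W s) (hdg s)
  realization : ∀ l s, IsRealization (W s) (E l) (c l s)

variable {S : Type w} {W : S → WeilCohomology.{u, v} ops} {L : Type y}

/-- The image of the class `a` in the ring of index `l` is the image of a Hodge class of codimension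
`p` for the theory `W t`. -/
def ConjugateIsHodge (Ψ : ComparedHodge.{u, v, w, x, y} W L) (s : S) (X : 𝒱.Obj) (p : ℕ)
    (j : L × S) (a : (W s).H X) : Prop :=
  ImageOf (Ψ.hdg j.2 X p) (Ψ.c j.1 j.2 X p) (Ψ.c j.1 s X p a)

/-- The span of the Hodge classes of codimension `p` for `W s` whose image in the ring of index `l`
is, for all pairs `(l, t)` in `J`, the image of a Hodge class for `W t`. -/
def conjHodge (Ψ : ComparedHodge.{u, v, w, x, y} W L) (J : Set (L × S)) (s : S) (X : 𝒱.Obj)
    (p : ℕ) : Submodule (W s).K ((W s).H X) :=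
  condSpan (Ψ.hdg s X p) J (ConjugateIsHodge Ψ s X p)

/-- The dimension of the space of the Hodge classes. -/
noncomputable def allHodgeDim (Ψ : ComparedHodge.{u, v, w, x, y} W L) (s : S) (X : 𝒱.Obj)
    (p : ℕ) : ℕ :=
  finrank (W s).K (Ψ.hdg s X p)

/-- The dimension of the span of the Hodge classes whose conjugates (for `J`) are Hodge classes. -/
noncomputable def conjHodgeDim (Ψ : ComparedHodge.{u, v, w, x, y} W L) (J : Set (L × S)) (s : S)
    (X : 𝒱.Obj) (p : ℕ) : ℕ :=
  finrank (W s).K (conjHodge Ψ J s X p)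

/-- On all varieties of dimension `n` all Hodge classes of codimension `p` are (combinations of)
Hodge classes whose conjugates (for `J`) are Hodge classes. -/
def ConjugatesHodge (Ψ : ComparedHodge.{u, v, w, x, y} W L) (J : Set (L × S)) (s : S)
    (n p : ℕ) : Prop :=
  ∀ X : 𝒱.Obj, X.dim = n → Ψ.hdg s X p ≤ conjHodge Ψ J s X p

/-- The same up to a bounded error of the dimensions. -/
def ConjugatesBounded (Ψ : ComparedHodge.{u, v, w, x, y} W L) (J : Set (L × S)) (s : S)
    (n p : ℕ) : Prop :=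
  ExceedsBounded (fun X => allHodgeDim Ψ s X p) (fun X => conjHodgeDim Ψ J s X p) n

/-- The same up to an error of the dimensions which is `o(b)`, where `b` is the Betti number
`b_(2 p)`. -/
def ConjugatesSublinear (Ψ : ComparedHodge.{u, v, w, x, y} W L) (J : Set (L × S)) (s : S)
    (n p : ℕ) : Prop :=
  ExceedsSublinear (W s) (fun X => allHodgeDim Ψ s X p) (fun X => conjHodgeDim Ψ J s X p) n
    (2 * p)

lemma conj_le (Ψ : ComparedHodge.{u, v, w, x, y} W L) (J : Set (L × S)) (s : S) (X : 𝒱.Obj)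
    (p : ℕ) : conjHodge Ψ J s X p ≤ Ψ.hdg s X p := Submodule.span_le.2 fun _ ha => ha.1

lemma conj_pi (Ψ : ComparedHodge.{u, v, w, x, y} W L) (J : Set (L × S)) (s : S) {X T : 𝒱.Obj}
    {f : T.Cycles} (hdim : T.dim = 2) (hf : T.IsCyc 1 f) {p : ℕ} {a : (W s).H (X.prod T)}
    (ha : a ∈ conjHodge Ψ J s (X.prod T) (p + 1)) : pi (W s) X f a ∈ conjHodge Ψ J s X p := by
  induction ha using Submodule.span_induction with
  | mem a ha =>
    refine Submodule.subset_span ⟨hdg_pi (Ψ.hodge s) hdim hf ha.1, fun j hj => ?_⟩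
    obtain ⟨b, hb, hbc⟩ := ha.2 j hj
    refine ⟨pi (W j.2) X f b, hdg_pi (Ψ.hodge j.2) hdim hf hb, ?_⟩
    rw [c_pi (Ψ.realization j.1 j.2) hdim hf (((Ψ.hodge j.2).like _).1 _ hb),
      c_pi (Ψ.realization j.1 s) hdim hf (((Ψ.hodge s).like _).1 _ ha.1), hbc]
  | zero => rw [map_zero]; exact Submodule.zero_mem _
  | add a b _ _ ha hb => rw [map_add]; exact Submodule.add_mem _ ha hb
  | smul c a _ ha => rw [map_smul]; exact Submodule.smul_mem _ _ ha

/-- **Several comparison theories.** -/
theorem conj_main (Ψ : ComparedHodge.{u, v, w, x, y} W L) (J : Set (L × S)) (s : S)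
    (hT : HasRationalSurfaces (W s)) :
    (∀ n p : ℕ, ConjugatesSublinear Ψ J s (n + 2) (p + 1) → ConjugatesHodge Ψ J s n p) ∧
    [∀ n p : ℕ, ConjugatesHodge Ψ J s n p, ∀ n p : ℕ, ConjugatesBounded Ψ J s n p,
      ∀ n p : ℕ, ConjugatesSublinear Ψ J s n p].TFAE :=
  pair_main (M := Ψ.hdg s) (N := conjHodge Ψ J s) hT (fun X p => conj_le Ψ J s X p)
    (fun X p => ((Ψ.hodge s).like X).1 p)
    (fun _ _ _ he _ _ hx => hdg_iota (Ψ.hodge s) he hx)
    (fun _ _ _ hdim hf _ _ hy => conj_pi Ψ J s hdim hf hy)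

end Pool.Agent.V11106.SH
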