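import Pool.Agent.V11106.LB.Defs

/-!
# Hodge classes and absolute Hodge classes: definitions
-/

open CategoryTheory AlgebraicGeometry

universe u v w x

namespace Pool.Agent.V11106.SH

open Pool.Agent.H914 VarClass Obj WeilCohomology Module

section Alg

variable {K K' A B : Type*} [Field K] [Ring A] [Algebra K A] [Field K'] [Ring B] [Algebra K' B]
  {R R' Z ι : Type*} [Ring R] [Ring R']

/-- The maps `c p` from `A` to `R` are additive, and they are compatible with the products of
elements of even degrees; `c p` matters only on `gr (2 p)`. -/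
def ComparesProducts (gr : ℕ → Submodule K A) (c : ℕ → A → R) : Prop :=
  (∀ p a b, c p (a + b) = c p a + c p b) ∧
  ∀ p q, ∀ a ∈ gr (2 * p), ∀ b ∈ gr (2 * q), c (p + q) (a * b) = c p a * c q b

/-- The maps `c p` and `c' q` are compatible with `f` and `g`, for all `p` and `q` with
`p + m = q + n` and elements of degree `2 p`. -/
def ComparesMaps (gr : ℕ → Submodule K A) (c : ℕ → A → R) (c' : ℕ → B → R') (f : A → B)
    (g : R → R') (n m : ℕ) : Prop :=
  ∀ p q, p + m = q + n → ∀ a ∈ gr (2 * p), c' q (f a) = g (c p a)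

/-- The map `c p` sends the class `cl z` to `cl' z` if `z` is a cycle of codimension `p`. -/
def ComparesClasses (cyc : ℕ → Z → Prop) (c : ℕ → A → R) (cl : Z → A) (cl' : Z → R) : Prop :=
  ∀ p z, cyc p z → c p (cl z) = cl' z

/-- The subspaces `h p` of `gr (2 p)` contain the classes of cycles of codimension `p` and are
preserved by products. -/
def IsHodgeLike (gr h : ℕ → Submodule K A) (cyc : ℕ → Z → Prop) (cl : Z → A) : Prop :=
  (∀ p, h p ≤ gr (2 * p)) ∧ (∀ p z, cyc p z → cl z ∈ h p) ∧
  ∀ p q, ∀ a ∈ h p, ∀ b ∈ h q, a * b ∈ h (p + q)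

/-- The map `f` sends `h p` to `h' q` if `p + m = q + n`. -/
def MapsHodge (h : ℕ → Submodule K A) (h' : ℕ → Submodule K' B) (f : A → B) (n m : ℕ) : Prop :=
  ∀ p q, p + m = q + n → ∀ a ∈ h p, f a ∈ h' q

/-- `r` is the image under `c` of an element of `U`. -/
def ImageOf (U : Submodule K A) (c : A → R) (r : R) : Prop := ∃ b ∈ U, c b = r

/-- The elements `a` of `U` such that `c a` has all the properties `P t`. -/
def absSet (U : Submodule K A) (c : A → R) (P : ι → R → Prop) : Set A :=
  {a | a ∈ U ∧ ∀ t, P t (c a)}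

/-- The span of these elements. -/
def absSpan (U : Submodule K A) (c : A → R) (P : ι → R → Prop) : Submodule K A :=
  Submodule.span K (absSet U c P)

end Alg

variable {k : Type u} [Field k] {𝒱 : VarClass k} {ops : CycleOps 𝒱}

/-- Rings `R X` for all varieties `X`, with pull-backs, push-forwards and classes of cycles, in
which the cohomology classes for different theories are compared: for example the algebraic de Rham
cohomology, the `ℓ`-adic cohomology, or their product. -/
structure Ambient (𝒱 : VarClass k) where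
  /-- the rings -/
  R : 𝒱.Obj → Type x
  ring : ∀ X, Ring (R X)
  /-- the pull-backs -/
  res : ∀ {X Y : 𝒱.Obj}, (X ⟶ Y) → R Y → R X
  /-- the push-forwards -/
  gys : ∀ {X Y : 𝒱.Obj}, (X ⟶ Y) → R X → R Y
  /-- the classes of the cycles -/
  cl : ∀ {X : 𝒱.Obj}, X.Cycles → R X

attribute [instance] Ambient.ring

/-- The maps `c p` on the cohomology of `X` are compatible with products. -/
def RealMul (W : WeilCohomology.{u, v} ops) (E : Ambient.{u, x} 𝒱) (X : 𝒱.Obj)
    (c : ℕ → W.H X → E.R X) : Prop :=
  ComparesProducts (W.gr X) c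

/-- The maps `c p` and `c' p` on the cohomologies of `X` and `Y` are compatible with the
pull-back. -/
def RealMap (W : WeilCohomology.{u, v} ops) (E : Ambient.{u, x} 𝒱) {X Y : 𝒱.Obj} (f : X ⟶ Y)
    (c : ℕ → W.H X → E.R X) (c' : ℕ → W.H Y → E.R Y) : Prop :=
  ComparesMaps (W.gr Y) c' c (W.map f) (E.res f) 0 0

/-- The maps `c p` and `c' p` on the cohomologies of `X` and `Y` are compatible with the
push-forward. -/
def RealPush (W : WeilCohomology.{u, v} ops) (E : Ambient.{u, x} 𝒱) {X Y : 𝒱.Obj} (f : X ⟶ Y)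
    (c : ℕ → W.H X → E.R X) (c' : ℕ → W.H Y → E.R Y) : Prop :=
  ComparesMaps (W.gr X) c c' (W.push f) (E.gys f) X.dim Y.dim

/-- The maps `c p` on the cohomology of `X` are compatible with the classes of cycles. -/
def RealCl (W : WeilCohomology.{u, v} ops) (E : Ambient.{u, x} 𝒱) (X : 𝒱.Obj)
    (c : ℕ → W.H X → E.R X) : Prop :=
  ComparesClasses X.IsCyc c (W.cl X) E.cl

/-- The maps `c X p` from the cohomology of `X` for the theory `W` to the ring `R X` (which matter
only on `H^(2 p)(X)`) are compatible with the products of classes of even degrees, with pull-backs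
and push-forwards, and with the classes of cycles. -/
structure IsRealization (W : WeilCohomology.{u, v} ops) (E : Ambient.{u, x} 𝒱)
    (c : ∀ X : 𝒱.Obj, ℕ → W.H X → E.R X) : Prop where
  mul : ∀ X, RealMul W E X (c X)
  map : ∀ {X Y : 𝒱.Obj} (f : X ⟶ Y), RealMap W E f (c X) (c Y)
  push : ∀ {X Y : 𝒱.Obj} (f : X ⟶ Y), RealPush W E f (c X) (c Y)
  cl : ∀ X : 𝒱.Obj, RealCl W E X (c X)

/-- The subspaces `h p` of the cohomology of `X` contain the classes of cycles and are preserved by
products. -/
def HodgeMul (W : WeilCohomology.{u, v} ops) (X : 𝒱.Obj) (h : ℕ → Submodule W.K (W.H X)) :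
    Prop :=
  IsHodgeLike (W.gr X) h X.IsCyc (W.cl X)

/-- The pull-back maps `h' p` to `h p`. -/
def HodgeMap (W : WeilCohomology.{u, v} ops) {X Y : 𝒱.Obj} (f : X ⟶ Y)
    (h : ℕ → Submodule W.K (W.H X)) (h' : ℕ → Submodule W.K (W.H Y)) : Prop :=
  MapsHodge h' h (W.map f) 0 0

/-- The push-forward maps `h p` to `h' q` if `p + dim Y = q + dim X`. -/
def HodgePush (W : WeilCohomology.{u, v} ops) {X Y : 𝒱.Obj} (f : X ⟶ Y)
    (h : ℕ → Submodule W.K (W.H X)) (h' : ℕ → Submodule W.K (W.H Y)) : Prop :=
  MapsHodge h h' (W.push f) X.dim Y.dim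

/-- The subspaces `hdg X p` of `H^(2 p)(X)` behave like the spaces of Hodge classes: they contain the
classes of cycles and are preserved by products, pull-backs and push-forwards. -/
structure IsHodge (W : WeilCohomology.{u, v} ops)
    (hdg : ∀ X : 𝒱.Obj, ℕ → Submodule W.K (W.H X)) : Prop where
  like : ∀ X : 𝒱.Obj, HodgeMul W X (hdg X)
  map : ∀ {X Y : 𝒱.Obj} (f : X ⟶ Y), HodgeMap W f (hdg X) (hdg Y)
  push : ∀ {X Y : 𝒱.Obj} (f : X ⟶ Y), HodgePush W f (hdg X) (hdg Y)

/-- A family of theories `W s` (for example the Betti cohomology of the conjugates of the varieties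
by the automorphisms `s` of the complex numbers, or by the embeddings `s` of the base field), with
Hodge classes, and with comparisons with the same rings. -/
structure HodgeFamily {S : Type w} (W : S → WeilCohomology.{u, v} ops) where
  /-- the rings -/
  E : Ambient.{u, x} 𝒱
  /-- the comparisons -/
  c : ∀ (s : S) (X : 𝒱.Obj), ℕ → (W s).H X → E.R X
  /-- the Hodge classes -/
  hdg : ∀ (s : S) (X : 𝒱.Obj), ℕ → Submodule (W s).K ((W s).H X)
  realization : ∀ s, IsRealization (W s) E (c s)
  hodge : ∀ s, IsHodge (W s) (hdg s)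

variable {S : Type w} {W : S → WeilCohomology.{u, v} ops}

/-- The element `r` of `R X` is the image of a Hodge class of codimension `p` for the theory
`W t`. -/
def HodgeFor (Φ : HodgeFamily.{u, v, w, x} W) (X : 𝒱.Obj) (p : ℕ) (t : S) (r : Φ.E.R X) : Prop :=
  ImageOf (Φ.hdg t X p) (Φ.c t X p) r

/-- The span of the absolute Hodge classes for the theory `W s`: the Hodge classes whose image in
`R X` is, for every `t`, the image of a Hodge class for the theory `W t` (for `K = ℚ` they form a
subspace). -/
def absHodge (Φ : HodgeFamily.{u, v, w, x} W) (s : S) (X : 𝒱.Obj) (p : ℕ) :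
    Submodule (W s).K ((W s).H X) :=
  absSpan (Φ.hdg s X p) (Φ.c s X p) (HodgeFor Φ X p)

/-- The dimension of the space of the Hodge classes. -/
noncomputable def hodgeDim (Φ : HodgeFamily.{u, v, w, x} W) (s : S) (X : 𝒱.Obj) (p : ℕ) : ℕ :=
  finrank (W s).K (Φ.hdg s X p)

/-- The dimension of the span of the absolute Hodge classes. -/
noncomputable def absHodgeDim (Φ : HodgeFamily.{u, v, w, x} W) (s : S) (X : 𝒱.Obj) (p : ℕ) : ℕ :=
  finrank (W s).K (absHodge Φ s X p)

/-- The dimension of the span of the classes of the cycles. -/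
noncomputable def algebraicDim (V : WeilCohomology.{u, v} ops) (X : 𝒱.Obj) (p : ℕ) : ℕ :=
  finrank V.K (spanCycles V X p)

/-- On the varieties of dimension `n` the number `m X` exceeds `l X` by a bounded number. -/
def ExceedsBounded (m l : 𝒱.Obj → ℕ) (n : ℕ) : Prop :=
  ∃ D : ℕ, ∀ X : 𝒱.Obj, X.dim = n → m X ≤ l X + D

/-- On the varieties of dimension `n` the number `m X` exceeds `l X` by `o(b)`, where `b` is the
Betti number `b_i(X)`. -/
def ExceedsSublinear (V : WeilCohomology.{u, v} ops) (m l : 𝒱.Obj → ℕ) (n i : ℕ) : Prop :=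
  ∀ ε : ℝ, 0 < ε → ∃ B : ℕ, ∀ X : 𝒱.Obj, X.dim = n → B ≤ V.betti X i →
    (m X : ℝ) ≤ l X + ε * V.betti X i

/-- On all varieties of dimension `n` all Hodge classes of codimension `p` are (combinations of)
absolute Hodge classes. -/
def HodgeIsAbsolute (Φ : HodgeFamily.{u, v, w, x} W) (s : S) (n p : ℕ) : Prop :=
  ∀ X : 𝒱.Obj, X.dim = n → Φ.hdg s X p ≤ absHodge Φ s X p

/-- The same up to a bounded error of the dimensions. -/
def HodgeBounded (Φ : HodgeFamily.{u, v, w, x} W) (s : S) (n p : ℕ) : Prop :=
  ExceedsBounded (fun X => hodgeDim Φ s X p) (fun X => absHodgeDim Φ s X p) n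

/-- The same up to an error of the dimensions which is `o(b)`, where `b` is the Betti number
`b_(2 p)`. -/
def HodgeSublinear (Φ : HodgeFamily.{u, v, w, x} W) (s : S) (n p : ℕ) : Prop :=
  ExceedsSublinear (W s) (fun X => hodgeDim Φ s X p) (fun X => absHodgeDim Φ s X p) n (2 * p)

/-- On all varieties of dimension `n` all absolute Hodge classes of codimension `p` are
algebraic. -/
def AbsoluteIsAlgebraic (Φ : HodgeFamily.{u, v, w, x} W) (s : S) (n p : ℕ) : Prop :=
  ∀ X : 𝒱.Obj, X.dim = n → absHodge Φ s X p ≤ spanCycles (W s) X p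

/-- The same up to a bounded error of the dimensions. -/
def AbsoluteBounded (Φ : HodgeFamily.{u, v, w, x} W) (s : S) (n p : ℕ) : Prop :=
  ExceedsBounded (fun X => absHodgeDim Φ s X p) (fun X => algebraicDim (W s) X p) n

/-- The same up to an error of the dimensions which is `o(b)`, where `b` is the Betti number
`b_(2 p)`. -/
def AbsoluteSublinear (Φ : HodgeFamily.{u, v, w, x} W) (s : S) (n p : ℕ) : Prop :=
  ExceedsSublinear (W s) (fun X => absHodgeDim Φ s X p) (fun X => algebraicDim (W s) X p) n (2 * p)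

end Pool.Agent.V11106.SH
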