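import Pool.Agent.V11106.LB.Defs

/-!
# Galois actions, Tate classes and defects: definitions
-/

open CategoryTheory AlgebraicGeometry

universe u v w

namespace Pool.Agent.V11106.SH

open Pool.Agent.H914 VarClass Obj WeilCohomology Module Pool.Agent.V11106.LB

section Alg

variable {K A B : Type*} [Field K] [Ring A] [Algebra K A] [Ring B] [Algebra K B] {Γ : Type*}

/-- The formal properties of the action of a Galois group `Γ` (or of one Frobenius endomorphism, for
`Γ` with one element) on the cohomology algebra `A` of a variety of dimension `n` with the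
orientation `tr`, where `C j` is the set of the classes of the cycles of codimension `j`: each `g`
acts by an endomorphism `ρ g` of the algebra which preserves the degrees and multiplies the
orientation by `χ g ^ n` and the elements of `C j` by `χ g ^ j`, where `χ g ≠ 0`. -/
structure IsAct (χ : Γ → K) (gr : ℕ → Submodule K A) (n : ℕ) (tr : A →ₗ[K] K) (C : ℕ → Set A)
    (ρ : Γ → (A →ₐ[K] A)) : Prop where
  ne_zero : ∀ g, χ g ≠ 0
  gr_mem : ∀ g i, ∀ a ∈ gr i, ρ g a ∈ gr i
  tr_act : ∀ g a, tr (ρ g a) = χ g ^ n * tr a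
  cl_act : ∀ g j, ∀ c ∈ C j, ρ g c = χ g ^ j • c

/-- The homomorphism `f` commutes with the actions. -/
def Commutes (f : A →ₐ[K] B) (ρ : Γ → (A →ₐ[K] A)) (υ : Γ → (B →ₐ[K] B)) : Prop :=
  ∀ g a, υ g (f a) = f (ρ g a)

/-- The subspace of the elements `c` of `U` with `ρ g c = χ g ^ j • c` for all `g`. -/
def eigen (χ : Γ → K) (ρ : Γ → (A →ₐ[K] A)) (U : Submodule K A) (j : ℕ) : Submodule K A where
  carrier := {c | c ∈ U ∧ ∀ g, ρ g c = χ g ^ j • c}
  add_mem' := fun ha hb =>
    ⟨U.add_mem ha.1 hb.1, fun g => by rw [map_add, ha.2 g, hb.2 g, smul_add]⟩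
  zero_mem' := ⟨U.zero_mem, fun g => by rw [map_zero, smul_zero]⟩
  smul_mem' := fun c x hx =>
    ⟨U.smul_mem c hx.1, fun g => by rw [map_smul, hx.2 g, smul_comm]⟩

end Alg

variable {k : Type u} [Field k] {𝒱 : VarClass k} {ops : CycleOps 𝒱}

/-- The set of the classes of the cycles of codimension `j`. -/
def clSet (W : WeilCohomology.{u, v} ops) (X : 𝒱.Obj) (j : ℕ) : Set (W.H X) :=
  {c | ∃ z, X.IsCyc j z ∧ W.cl X z = c}

/-- Actions of `Γ` on the cohomology algebras of all varieties of the class which commute with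
pull-backs and behave like the action of the Galois group (or of the Frobenius): `χ` is the
character by which `Γ` acts on the Tate twists. -/
structure GaloisLike (W : WeilCohomology.{u, v} ops) (Γ : Type w) where
  /-- the character -/
  χ : Γ → W.K
  /-- the actions -/
  ρ : ∀ X : 𝒱.Obj, Γ → (W.H X →ₐ[W.K] W.H X)
  act : ∀ X : 𝒱.Obj, IsAct χ (W.gr X) X.dim (W.tr X) (clSet W X) (ρ X)
  map : ∀ {X Y : 𝒱.Obj} (f : X ⟶ Y), Commutes (W.map f) (ρ Y) (ρ X)

variable {W : WeilCohomology.{u, v} ops} {Γ : Type w}

/-- The space of the Tate classes of codimension `r`: the classes in `H^(2 r)(X)` on which all `g`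
act as multiplication by `χ g ^ r`. -/
def tate (G : GaloisLike W Γ) (X : 𝒱.Obj) (r : ℕ) : Submodule W.K (W.H X) :=
  eigen G.χ (G.ρ X) (W.gr X (2 * r)) r

/-- The dimension of the space of the Tate classes of codimension `r`. -/
noncomputable def tateDim (G : GaloisLike W Γ) (X : 𝒱.Obj) (r : ℕ) : ℕ :=
  finrank W.K (tate G X r)

/-- The dimension of the span (with coefficients in `K`) of the classes of the cycles of
codimension `r`. -/
noncomputable def algDim (W : WeilCohomology.{u, v} ops) (X : 𝒱.Obj) (r : ℕ) : ℕ :=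
  finrank W.K (spanCycles W X r)

/-- The Tate conjecture in codimension `r` for all varieties of dimension `n`: the Tate classes are
combinations, with coefficients in `K`, of classes of cycles. -/
def TateIn (G : GaloisLike W Γ) (n r : ℕ) : Prop :=
  ∀ X : 𝒱.Obj, X.dim = n → tate G X r ≤ spanCycles W X r

/-- On all varieties of dimension `n` the dimension of the span of the algebraic classes of
codimension `r` is at least `θ` times the dimension of the space of the Tate classes. -/
def Share (G : GaloisLike W Γ) (θ : ℝ) (n r : ℕ) : Prop :=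
  ∀ X : 𝒱.Obj, X.dim = n → θ * tateDim G X r ≤ algDim W X r

/-- The same up to an error `o(b)`, where `b` is the Betti number `b_(2 r)`. -/
def ShareUpToSublinear (G : GaloisLike W Γ) (θ : ℝ) (n r : ℕ) : Prop :=
  ∀ ε : ℝ, 0 < ε → ∃ B : ℕ, ∀ X : 𝒱.Obj, X.dim = n → B ≤ W.betti X (2 * r) →
    θ * tateDim G X r ≤ algDim W X r + ε * W.betti X (2 * r)

/-- On the varieties of dimension `n` the dimension of the space of the Tate classes of codimension
`r` exceeds the dimension of the span of the algebraic classes by a bounded number. -/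
def BoundedDefect (G : GaloisLike W Γ) (n r : ℕ) : Prop :=
  ∃ D : ℕ, ∀ X : 𝒱.Obj, X.dim = n → tateDim G X r ≤ algDim W X r + D

end Pool.Agent.V11106.SH
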