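import Pool.Agent.V11106.SH.Kun
import Pool.Agent.TH133.PW.Ev

/-!
# The even projector up to errors of small rank
-/

open CategoryTheory AlgebraicGeometry

universe u v

namespace Pool.Agent.V11106.SH

open Pool.Agent.H914 VarClass Obj WeilCohomology Module Pool.Agent.V11106.LB
  Pool.Agent.TH133.PW Pool.Agent.H447

variable {k : Type u} [Field k] {𝒱 : VarClass k} {ops : CycleOps 𝒱}
  {W : WeilCohomology.{u, v} ops} {X Y S T : 𝒱.Obj}

/-- **The even projector.** -/
theorem signExact_of_sublinear (hT : HasRationalSurfaces W) {n : ℕ}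
    (h : SignUpToSublinear W (n + 2)) : SignExact W n := by
  intro S hS
  have hiff : SignStd W S ↔ StableParity (W.gr S) (cycleOperators W S S.dim) :=
    (sign_tfae W S).out 0 4
  refine hiff.2 ?_
  intro N₀ hN₀ P hP x hx
  have hst : ∀ ψ ∈ KOp W S S 0, ∀ y ∈ N₀, ψ y ∈ N₀ := by
    intro ψ hψ
    rw [← span_cycleOperators0] at hψ
    induction hψ using Submodule.span_induction with
    | mem φ hφ => exact hN₀ φ hφ
    | zero => exact fun x _ => Submodule.zero_mem _
    | add φ ψ _ _ h1 h2 => exact fun x hx => Submodule.add_mem _ (h1 x hx) (h2 x hx)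
    | smul a φ _ h => exact fun x hx => Submodule.smul_mem _ _ (h x hx)
  refine stable_of_sublinear hT (PS := P) (fun ε hε => ?_) hst hx
  obtain ⟨B, hB⟩ := h ε hε
  refine ⟨B, fun T hT2 hb => ?_⟩
  obtain ⟨PY, hPY, hw⟩ := hB (S.prod T) (by rw [dim_prod, hS, hT2]) hb
  refine ⟨PY, fun e he x => ?_, hw⟩
  refine gr_induction (W.isInternal S) (p := fun x => PY (iota W S e x) = iota W S e (P x))
    ?_ ?_ x
  · intro j a ha
    rw [hPY (j + 2) _ (iota_gr he ha), hP j a ha]
    by_cases hj : Even j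
    · rw [if_pos hj, if_pos (by obtain ⟨m, rfl⟩ := hj; exact ⟨m + 1, by ring⟩)]
    · rw [if_neg hj, if_neg (fun h2 => hj (by
        obtain ⟨m, hm⟩ := h2
        exact ⟨m - 1, by omega⟩)), map_zero]
  · intro a a' ha ha'
    rw [map_add, map_add, ha, ha', map_add, map_add]

lemma signUpToBounded_of_exact {n : ℕ} (h : SignExact W n) : SignUpToBounded W n := by
  refine ⟨0, fun X hX => ?_⟩
  obtain ⟨z, hz, hP'⟩ := h X hX
  refine ⟨_, hP', _, Submodule.subset_span ⟨z, hz, rfl⟩, ?_⟩
  rw [sub_self, LinearMap.range_zero, finrank_bot, Nat.cast_zero]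

lemma signUpToSublinear_of_bounded {n : ℕ} (h : SignUpToBounded W n) :
    SignUpToSublinear W n := by
  obtain ⟨B, hB⟩ := h
  intro ε hε
  refine ⟨⌈B / ε⌉₊, fun X hX hb => ?_⟩
  obtain ⟨P, hP, φ, hφ, h1⟩ := hB X hX
  refine ⟨P, hP, φ, hφ, h1.trans ?_⟩
  have h2 : B / ε ≤ (totalBetti W X : ℝ) := (Nat.le_ceil _).trans (by exact_mod_cast hb)
  rw [div_le_iff₀ hε] at h2
  linarith

/-- **The sign conjecture up to errors of small rank.** -/
theorem sign_main (hT : HasRationalSurfaces W) :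
    (∀ n : ℕ, SignUpToSublinear W (n + 2) → SignExact W n) ∧
    [∀ n : ℕ, SignExact W n, ∀ n : ℕ, SignUpToBounded W n,
      ∀ n : ℕ, SignUpToSublinear W n].TFAE := by
  refine ⟨fun n h => signExact_of_sublinear hT h, ?_⟩
  tfae_have 1 → 2 := fun h n => signUpToBounded_of_exact (h n)
  tfae_have 2 → 3 := fun h n => signUpToSublinear_of_bounded (h n)
  tfae_have 3 → 1 := fun h n => signExact_of_sublinear hT (h (n + 2))
  tfae_finish

end Pool.Agent.V11106.SH
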