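import Pool.Agent.V11106.SH.Soc
import Pool.Agent.V11106.SH.Sign

/-!
# Criteria for one variety `X`, along the products `X × T` with surfaces
-/

open CategoryTheory AlgebraicGeometry

universe u v w

namespace Pool.Agent.V11106.SH

open Pool.Agent.H914 VarClass Obj WeilCohomology Module Pool.Agent.V11106.LB
  Pool.Agent.TH133.PW Pool.Agent.H447

variable {k : Type u} [Field k] {𝒱 : VarClass k} {ops : CycleOps 𝒱}
  {W : WeilCohomology.{u, v} ops} {Γ : Type w}

/-- The representations `H^(i + 2)(X × T)`, for all surfaces `T`, contain semisimple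
subrepresentations of bounded codimension. -/
def SocleBoundedAlong (G : GaloisLike W Γ) (X : 𝒱.Obj) (i : ℕ) : Prop :=
  ∃ B : ℝ, ∀ T : 𝒱.Obj, T.dim = 2 →
    SocleCodimAtMost (G.ρ (X.prod T)) (W.gr (X.prod T) (i + 2)) B

/-- The representations `H^(i + 2)(X × T)`, for all surfaces `T`, contain semisimple
subrepresentations whose codimension is `o(b)`, where `b` is the Betti number
`b_(i + 2)(X × T)`. -/
def SocleSublinearAlong (G : GaloisLike W Γ) (X : 𝒱.Obj) (i : ℕ) : Prop :=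
  ∀ ε : ℝ, 0 < ε → ∃ B : ℕ, ∀ T : 𝒱.Obj, T.dim = 2 → B ≤ W.betti (X.prod T) (i + 2) →
    SocleCodimAtMost (G.ρ (X.prod T)) (W.gr (X.prod T) (i + 2))
      (ε * W.betti (X.prod T) (i + 2))

/-- **Semisimplicity for one variety.** -/
theorem semisimple_of_along (hT : HasRationalSurfaces W) (G : GaloisLike W Γ) {S : 𝒱.Obj}
    {i : ℕ} (h : SocleSublinearAlong G S i) : SemisimpleSub (G.ρ S) (W.gr S i) := by
  obtain ⟨Z, hZU, hZ, hmax⟩ := exists_socle (ρ := G.ρ S) (W.gr S i)
  have h1 : (1 : ℝ) * finrank W.K (W.gr S i) ≤ finrank W.K Z := by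
    refine share_principle (m := i) hT zero_le_one (fun ε hε => ?_) le_rfl
    obtain ⟨B, hB⟩ := h ε hε
    refine ⟨B, fun T hT2 hb => ?_⟩
    obtain ⟨V, hVU, hV, hcod⟩ := hB T hT2 hb
    refine ⟨W.gr (S.prod T) (i + 2), V, le_rfl, fun e he x hx => ?_, fun f hf y hy => ?_, ?_⟩
    · rw [iota_apply]
      have := W.mul_mem (W.map_mem (snd S T) (W.cl_mem he)) (W.map_mem (fst S T) hx)
      rwa [show 2 * 1 + i = i + 2 by omega] at this
    · refine hmax (V.map (pi W S f)) ?_ ?_ ⟨y, hy, rfl⟩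
      · rintro _ ⟨z, hz, rfl⟩
        exact pi_gr hT2 hf (hVU hz)
      · exact hV.image (fun g => (G.act S).ne_zero g) fun g x => act_pi G hT2 hf g x
    · rw [one_mul]
      exact hcod
  rw [one_mul] at h1
  have h2 : finrank W.K (W.gr S i) ≤ finrank W.K Z := by exact_mod_cast h1
  rw [← Submodule.eq_of_le_of_finrank_le hZU h2]
  exact hZ

/-- **Semisimplicity of the Galois representations, along products with surfaces.** -/
theorem semisimpleAlong_main (hT : HasRationalSurfaces W) (G : GaloisLike W Γ) :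
    (∀ (X : 𝒱.Obj) (i : ℕ), SocleSublinearAlong G X i → SemisimpleSub (G.ρ X) (W.gr X i)) ∧
    [∀ (X : 𝒱.Obj) (i : ℕ), SemisimpleSub (G.ρ X) (W.gr X i),
      ∀ (X : 𝒱.Obj) (i : ℕ), SocleBoundedAlong G X i,
      ∀ (X : 𝒱.Obj) (i : ℕ), SocleSublinearAlong G X i].TFAE := by
  refine ⟨fun X i h => semisimple_of_along hT G h, ?_⟩
  tfae_have 1 → 2 := fun h X i => ⟨0, fun T _ => ⟨_, le_rfl, h (X.prod T) (i + 2), by
    rw [add_zero]⟩⟩
  tfae_have 2 → 3 := by
    intro h X i ε hε
    obtain ⟨B, hB⟩ := h X i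
    refine ⟨⌈B / ε⌉₊, fun T hT2 hb => ?_⟩
    obtain ⟨V, hVU, hV, hcod⟩ := hB T hT2
    refine ⟨V, hVU, hV, hcod.trans ?_⟩
    have h1 : B / ε ≤ (W.betti (X.prod T) (i + 2) : ℝ) :=
      (Nat.le_ceil _).trans (by exact_mod_cast hb)
    rw [div_le_iff₀ hε] at h1
    linarith
  tfae_have 3 → 1 := fun h X i => semisimple_of_along hT G (h X i)
  tfae_finish

/-- On the products `X × T` with all surfaces `T` the projector onto the even cohomology is a
combination, with coefficients in `K`, of algebraic correspondences up to errors whose rank is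
bounded. -/
def SignBoundedAlong (W : WeilCohomology.{u, v} ops) (X : 𝒱.Obj) : Prop :=
  ∃ B : ℝ, ∀ T : 𝒱.Obj, T.dim = 2 →
    EvenProjWithin (W.gr (X.prod T)) (cycleOperators W (X.prod T) (X.prod T).dim) B

/-- The same up to errors whose rank is `o(b)`, where `b` is the sum of the Betti numbers of
`X × T`. -/
def SignSublinearAlong (W : WeilCohomology.{u, v} ops) (X : 𝒱.Obj) : Prop :=
  ∀ ε : ℝ, 0 < ε → ∃ B : ℕ, ∀ T : 𝒱.Obj, T.dim = 2 → B ≤ totalBetti W (X.prod T) →
    EvenProjWithin (W.gr (X.prod T)) (cycleOperators W (X.prod T) (X.prod T).dim)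
      (ε * totalBetti W (X.prod T))

/-- **The even projector for one variety.** -/
theorem sign_of_along (hT : HasRationalSurfaces W) {S : 𝒱.Obj} (h : SignSublinearAlong W S) :
    SignStd W S := by
  have hiff : SignStd W S ↔ StableParity (W.gr S) (cycleOperators W S S.dim) :=
    (sign_tfae W S).out 0 4
  refine hiff.2 ?_
  intro N₀ hN₀ P hP x hx
  have hst : ∀ ψ ∈ KOp W S S 0, ∀ y ∈ N₀, ψ y ∈ N₀ := by
    intro ψ hψ
    rw [← span_cycleOperators0] at hψ
    induction hψ using Submodule.span_induction with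
    | mem φ hφ => exact hN₀ φ hφ
    | zero => exact fun x _ => Submodule.zero_mem _
    | add φ ψ _ _ h1 h2 => exact fun x hx => Submodule.add_mem _ (h1 x hx) (h2 x hx)
    | smul a φ _ h => exact fun x hx => Submodule.smul_mem _ _ (h x hx)
  refine stable_of_sublinear hT (PS := P) (fun ε hε => ?_) hst hx
  obtain ⟨B, hB⟩ := h ε hε
  refine ⟨B, fun T hT2 hb => ?_⟩
  obtain ⟨PY, hPY, hw⟩ := hB T hT2 hb
  refine ⟨PY, fun e he x => ?_, hw⟩
  refine gr_induction (W.isInternal S) (p := fun x => PY (iota W S e x) = iota W S e (P x))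
    ?_ ?_ x
  · intro j a ha
    rw [hPY (j + 2) _ (iota_gr he ha), hP j a ha]
    by_cases hj : Even j
    · rw [if_pos hj, if_pos (by obtain ⟨m, rfl⟩ := hj; exact ⟨m + 1, by ring⟩)]
    · rw [if_neg hj, if_neg (fun h2 => hj (by
        obtain ⟨m, hm⟩ := h2
        exact ⟨m - 1, by omega⟩)), map_zero]
  · intro a a' ha ha'
    rw [map_add, map_add, ha, ha', map_add, map_add]

/-- **The sign conjecture, along products with surfaces.** -/
theorem signAlong_main (hT : HasRationalSurfaces W) :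
    (∀ X : 𝒱.Obj, SignSublinearAlong W X → SignStd W X) ∧
    [∀ X : 𝒱.Obj, SignStd W X, ∀ X : 𝒱.Obj, SignBoundedAlong W X,
      ∀ X : 𝒱.Obj, SignSublinearAlong W X].TFAE := by
  refine ⟨fun X h => sign_of_along hT h, ?_⟩
  tfae_have 1 → 2 := by
    intro h X
    refine ⟨0, fun T _ => ?_⟩
    obtain ⟨z, hz, hP'⟩ := h (X.prod T)
    refine ⟨_, hP', _, Submodule.subset_span ⟨z, hz, rfl⟩, ?_⟩
    rw [sub_self, LinearMap.range_zero, finrank_bot, Nat.cast_zero]
  tfae_have 2 → 3 := by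
    intro h X ε hε
    obtain ⟨B, hB⟩ := h X
    refine ⟨⌈B / ε⌉₊, fun T hT2 hb => ?_⟩
    obtain ⟨P, hP, φ, hφ, h1⟩ := hB T hT2
    refine ⟨P, hP, φ, hφ, h1.trans ?_⟩
    have h2 : B / ε ≤ (totalBetti W (X.prod T) : ℝ) :=
      (Nat.le_ceil _).trans (by exact_mod_cast hb)
    rw [div_le_iff₀ hε] at h2
    linarith
  tfae_have 3 → 1 := fun h X => sign_of_along hT (h X)
  tfae_finish

end Pool.Agent.V11106.SH
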