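import Pool.Agent.V11106.SH.Semi

/-!
# The rank of the nilpotent part of Frobenius
-/

open CategoryTheory AlgebraicGeometry Polynomial

universe u v w

namespace Pool.Agent.V11106.SH

open Pool.Agent.H914 VarClass Obj WeilCohomology Module Pool.Agent.V11106.LB

lemma squarefree_equiv {M N : Type*} [CommRing M] [CommRing N] (f : M ≃+* N) {a : M}
    (h : Squarefree a) : Squarefree (f a) := by
  intro x hx
  have h1 : f.symm x * f.symm x ∣ a := by
    have := map_dvd f.symm hx
    rwa [map_mul, RingEquiv.symm_apply_apply] at this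
  have h2 := h _ h1
  have h3 := h2.map f
  rwa [RingEquiv.apply_symm_apply] at h3

section Lin

variable {K V V' : Type*} [Field K] [AddCommGroup V] [Module K V] [AddCommGroup V'] [Module K V']

lemma aeval_intertwine {F : Module.End K V} {F' : Module.End K V'} {ι : V →ₗ[K] V'}
    (h : ∀ x, F' (ι x) = ι (F x)) (p : K[X]) (x : V) : aeval F' p (ι x) = ι (aeval F p x) := by
  induction p using Polynomial.induction_on' with
  | add p q hp hq => rw [map_add, map_add, LinearMap.add_apply, LinearMap.add_apply, hp, hq,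
      map_add]
  | monomial n c =>
    rw [aeval_monomial, aeval_monomial, Module.End.mul_apply, Module.End.mul_apply,
      Module.algebraMap_end_apply, Module.algebraMap_end_apply, map_smul]
    congr 1
    induction n with
    | zero => simp
    | succ n ih => rw [pow_succ', pow_succ', Module.End.mul_apply, Module.End.mul_apply, ih, h]

lemma exists_scaled {c : K} (hc : c ≠ 0) {p : K[X]} (hp : Squarefree p) :
    ∃ p' : K[X], Squarefree p' ∧ ∀ F : Module.End K V, aeval F p' = aeval (c • F) p := by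
  let _ : Invertible c := invertibleOfNonzero hc
  refine ⟨algEquivCMulXAddC c 0 p, squarefree_equiv (algEquivCMulXAddC c 0).toRingEquiv hp,
    fun F => ?_⟩
  have h1 : aeval F (C c * X + C 0) = c • F := by
    rw [map_add, map_mul, aeval_C, aeval_X, map_zero, map_zero, add_zero,
      Algebra.algebraMap_eq_smul_one, smul_mul_assoc, one_mul]
  rw [algEquivCMulXAddC_apply, ← h1]
  exact (aeval_algHom_apply (aeval F) (C c * X + C 0) p).symm

end Lin

variable {k : Type u} [Field k] {𝒱 : VarClass k} {ops : CycleOps 𝒱}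
  {W : WeilCohomology.{u, v} ops} {X Y S T : 𝒱.Obj}

/-- From dimension `n + 2` to dimension `n`. -/
theorem frobeniusSemisimple_of_sublinear (hT : HasRationalSurfaces W) (G : GaloisLike W Unit)
    {n i : ℕ} (h : NilpotentRankSublinear G (n + 2) (i + 2)) : FrobeniusSemisimple G n i := by
  intro S hS
  by_contra hns
  set b := finrank W.K (W.H S) with hb
  obtain ⟨B, hB⟩ := h (1 / (2 * (b + 1))) (by positivity)
  set N := B + 4 with hN
  obtain ⟨T, hTN⟩ := hT N
  obtain ⟨e, f, o, hR⟩ := rat_of' hTN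
  have hχ : G.χ () ≠ 0 := (G.act S).ne_zero ()
  -- a nonzero class
  obtain ⟨x₀, hx₀, hx₀0⟩ : ∃ x ∈ W.gr S i, x ≠ 0 := by
    by_contra hno
    push Not at hno
    exact hns ⟨1, squarefree_one, fun x hx => by rw [hno x hx, map_zero]⟩
  have hspan : ∀ {z : W.H S}, z ≠ 0 → ∀ {TY : Submodule W.K (W.H (S.prod T))},
      (∀ j, iota W S (e j) z ∈ TY) → N ≤ finrank W.K TY := by
    intro z hz TY hTY
    have h1 := le_finrank hR (V := Submodule.span W.K {z}) (TY := TY) fun j x hx => by
      obtain ⟨c, rfl⟩ := Submodule.mem_span_singleton.1 hx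
      rw [map_smul]
      exact Submodule.smul_mem _ _ (hTY j)
    rwa [finrank_span_singleton hz, mul_one] at h1
  have hgr : ∀ {z : W.H S}, z ∈ W.gr S i → ∀ j, iota W S (e j) z ∈ W.gr (S.prod T) (i + 2) := by
    intro z hz j
    rw [iota_apply]
    have := W.mul_mem (W.map_mem (snd S T) (W.cl_mem (hR.he j))) (W.map_mem (fst S T) hz)
    rwa [show 2 * 1 + i = i + 2 by omega] at this
  have hbet : N ≤ W.betti (S.prod T) (i + 2) := hspan hx₀0 (hgr hx₀)
  obtain ⟨p, hp, hpB⟩ := hB (S.prod T) (by rw [dim_prod, hS, hR.dim]) (by omega)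
  obtain ⟨p', hp', hpp⟩ := exists_scaled (K := W.K) (V := W.H S) hχ hp
  obtain ⟨x, hx, hx0⟩ : ∃ x ∈ W.gr S i, aeval (frob G S) p' x ≠ 0 := by
    by_contra hno
    push Not at hno
    exact hns ⟨p', hp', hno⟩
  have h1 : ∀ j, iota W S (e j) (aeval (frob G S) p' x) ∈
      (W.gr (S.prod T) (i + 2)).map (aeval (frob G (S.prod T)) p) := by
    intro j
    refine ⟨iota W S (e j) x, hgr hx j, ?_⟩
    rw [hpp]
    refine aeval_intertwine (F := G.χ () • frob G S) (fun y => ?_) p x
    rw [frob_iota G (hR.he j), LinearMap.smul_apply, map_smul]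
  have h2 := hspan hx0 h1
  have h3 : W.betti (S.prod T) (i + 2) ≤ (N + 2) * b :=
    (Submodule.finrank_le _).trans (hR.finrank_le (S := S))
  have h4 : (N : ℝ) ≤ 1 / (2 * ((b : ℝ) + 1)) * ((N + 2) * b) := by
    have h5 : (N : ℝ) ≤ 1 / (2 * ((b : ℝ) + 1)) * W.betti (S.prod T) (i + 2) := by
      refine le_trans ?_ hpB
      exact_mod_cast h2
    refine h5.trans (mul_le_mul_of_nonneg_left ?_ (by positivity))
    exact_mod_cast h3
  have h7 : 1 / (2 * ((b : ℝ) + 1)) * ((N + 2) * b) ≤ (N + 2) / 2 := by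
    rw [div_mul_eq_mul_div, one_mul, div_le_div_iff₀ (by positivity) (by norm_num)]
    have : (0 : ℝ) ≤ N + 2 := by positivity
    nlinarith
  have h8 : (N : ℝ) = B + 4 := by rw [hN]; push_cast; ring
  have h9 : (0 : ℝ) ≤ B := by positivity
  linarith

/-- **Semisimplicity of Frobenius.** -/
theorem frobeniusSemisimple_main (hT : HasRationalSurfaces W) (G : GaloisLike W Unit) :
    (∀ n i : ℕ, NilpotentRankSublinear G (n + 2) (i + 2) → FrobeniusSemisimple G n i) ∧
    [∀ n i : ℕ, FrobeniusSemisimple G n i, ∀ n i : ℕ, NilpotentRankBounded G n i,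
      ∀ n i : ℕ, NilpotentRankSublinear G n i].TFAE := by
  refine ⟨fun n i h => frobeniusSemisimple_of_sublinear hT G h, ?_⟩
  tfae_have 1 → 2 := by
    intro h n i
    refine ⟨0, fun X hX => ?_⟩
    obtain ⟨p, hp, hp0⟩ := h n i X hX
    refine ⟨p, hp, ?_⟩
    have h1 : (W.gr X i).map (aeval (frob G X) p) = ⊥ := by
      rw [Submodule.eq_bot_iff]
      rintro _ ⟨x, hx, rfl⟩
      exact hp0 x hx
    rw [h1, finrank_bot, Nat.cast_zero]
  tfae_have 2 → 3 := by
    intro h n i ε hε
    obtain ⟨B, hB⟩ := h n i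
    refine ⟨⌈B / ε⌉₊, fun X hX hb => ?_⟩
    obtain ⟨p, hp, hpB⟩ := hB X hX
    refine ⟨p, hp, hpB.trans ?_⟩
    have h1 : B / ε ≤ (W.betti X i : ℝ) := (Nat.le_ceil _).trans (by exact_mod_cast hb)
    rw [div_le_iff₀ hε] at h1
    linarith
  tfae_have 3 → 1 := fun h n i => frobeniusSemisimple_of_sublinear hT G (h (n + 2) (i + 2))
  tfae_finish

end Pool.Agent.V11106.SH
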