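import Pool.Agent.V11106.SH.CompDefs
import Pool.Agent.V11106.SH.Semi2

/-!
# Frobenius on the cohomology of complete varieties
-/

open Polynomial Module

universe u v w

namespace Pool.Agent.V11106.SH

section Alg

variable {K : Type u} [Field K] {A B C V : Type w} [AddCommGroup A] [Module K A]
  [AddCommGroup B] [Module K B] [AddCommGroup C] [Module K C] [AddCommGroup V] [Module K V]

/-- The inclusion of the `j`-th copy of `B`. -/
noncomputable def splitInc {m : ℕ} (e : V ≃ₗ[K] A × (Fin m → B) × C) (j : Fin m) : B →ₗ[K] V where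
  toFun x := e.symm (0, Pi.single j x, 0)
  map_add' x y := by
    rw [← map_add]
    congr 1
    ext <;> simp [Pi.single_add]
  map_smul' c x := by
    rw [RingHom.id_apply, ← map_smul]
    congr 1
    ext <;> simp [Pi.single_smul]

lemma F_splitInc {m : ℕ} {e : V ≃ₗ[K] A × (Fin m → B) × C} {FV : V →ₗ[K] V} {FA : A →ₗ[K] A}
    {FB : B →ₗ[K] B} {FC : C →ₗ[K] C} {q : K} (h : SplitsEnd e FV FA FB FC q) (j : Fin m) (x : B) :
    FV (splitInc e j x) = splitInc e j ((q • FB) x) := by
  apply e.injective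
  rw [h]
  simp only [splitInc, LinearMap.coe_mk, AddHom.coe_mk,
    LinearEquiv.apply_symm_apply, map_zero, smul_zero, LinearMap.smul_apply]
  refine Prod.ext rfl (Prod.ext ?_ rfl)
  funext l
  by_cases hl : l = j
  · subst hl
    simp
  · simp [Pi.single_eq_of_ne hl]

/-- If the nilpotent part has rank less than `m` then `FB` is semisimple. -/
theorem semisimple_of_splits [Module.Finite K V] {m : ℕ} {FV : V →ₗ[K] V} {FA : A →ₗ[K] A}
    {FB : B →ₗ[K] B} {FC : C →ₗ[K] C} {q : K} (hq : q ≠ 0) (h : HasSplitting m FV FA FB FC q)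
    {r : ℝ} (hr : r < m) (hn : NilRankLe FV r) : IsSemisimpleEnd FB := by
  obtain ⟨e, he⟩ := h
  obtain ⟨p, hp, hrk⟩ := hn
  obtain ⟨p', hp', hpp⟩ := exists_scaled (V := B) hq hp
  refine ⟨p', hp', fun x => ?_⟩
  rw [hpp]
  set g : Module.End K B := aeval (q • FB) p with hg
  set G : Module.End K V := aeval FV p with hG
  have hint : ∀ j y, G (splitInc e j y) = splitInc e j (g y) := fun j y =>
    aeval_intertwine (fun z => F_splitInc he j z) p y
  by_contra hx
  let L : (Fin m → K) →ₗ[K] V :=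
    (Fintype.linearCombination K fun j => splitInc e j (g x))
  have hL : ∀ c, L c = ∑ j, c j • splitInc e j (g x) := fun c => rfl
  have hk : ∀ c l, (e (L c)).2.1 l = c l • g x := by
    intro c l
    rw [hL, map_sum]
    have h1 : ∀ j, e (c j • splitInc e j (g x)) = (0, Pi.single j (c j • g x), 0) := by
      intro j
      rw [← map_smul]
      exact LinearEquiv.apply_symm_apply _ _
    rw [Finset.sum_congr rfl fun j _ => h1 j, Prod.snd_sum, Prod.fst_sum, Finset.sum_apply,
      Finset.sum_eq_single l]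
    · change (Pi.single l (c l • g x) : Fin m → B) l = c l • g x
      rw [Pi.single_eq_same]
    · intro j _ hj
      change (Pi.single j (c j • g x) : Fin m → B) l = 0
      rw [Pi.single_eq_of_ne (Ne.symm hj)]
    · intro hm
      exact absurd (Finset.mem_univ l) hm
  have hinj : Function.Injective L := by
    intro c c' hcc
    funext l
    have h1 := hk c l
    rw [hcc, hk c' l] at h1
    exact (smul_left_injective K hx h1).symm
  have hrange : LinearMap.range L ≤ LinearMap.range G := by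
    rintro _ ⟨c, rfl⟩
    rw [hL]
    refine Submodule.sum_mem _ fun j _ => Submodule.smul_mem _ _ ?_
    rw [← hint]
    exact ⟨_, rfl⟩
  have h1 := Submodule.finrank_mono hrange
  rw [LinearMap.finrank_range_of_inj hinj, Module.finrank_fin_fun] at h1
  have h2 : (m : ℝ) ≤ finrank K (LinearMap.range G) := by exact_mod_cast h1
  linarith

end Alg

variable {K : Type u} [Field K] (C : CompleteCohomology.{u, v, w} K)

/-- **One variety.** -/
theorem frobSemisimpleOn_of_nil (X : C.Obj) (i : ℤ) (N : ℕ) {r : ℝ} (hr : r < N + 1)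
    (h : FrobNilLe C (C.times X N) (i + 2) r) : FrobSemisimpleOn C X i :=
  semisimple_of_splits C.q_ne (C.kunneth X N i) (by push_cast; exact hr) h

lemma CompleteCohomology.b_times (X : C.Obj) (N : ℕ) (i : ℤ) :
    C.b (C.times X N) (i + 2) = C.b X (i + 2) + ((N + 1) * C.b X i + C.b X (i - 2)) := by
  obtain ⟨e, -⟩ := C.kunneth X N i
  unfold CompleteCohomology.b
  rw [e.finrank_eq, Module.finrank_prod, Module.finrank_prod,
    Module.finrank_pi_fintype, Finset.sum_const, Finset.card_univ, Fintype.card_fin, smul_eq_mul]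

/-- From dimension `n + 2` to dimension `n`. -/
theorem frobSemisimple_of_sublinear {n : ℕ} {i : ℤ} (h : FrobNilSublinear C (n + 2) (i + 2)) :
    FrobSemisimple C n i := by
  intro X hX
  by_cases hb : C.b X i = 0
  · refine ⟨1, squarefree_one, fun x => ?_⟩
    have : Subsingleton (C.D.H X i) := Module.finrank_zero_iff.1 hb
    exact Subsingleton.elim _ _
  set β : ℝ := C.b X (i + 2) + C.b X (i - 2) + C.b X i with hβ
  have hi : (1 : ℝ) ≤ C.b X i := by exact_mod_cast Nat.one_le_iff_ne_zero.2 hb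
  have hβ0 : 0 < β := by
    have h1 : (0 : ℝ) ≤ C.b X (i + 2) := Nat.cast_nonneg _
    have h2 : (0 : ℝ) ≤ C.b X (i - 2) := Nat.cast_nonneg _
    rw [hβ]
    linarith
  obtain ⟨B, hB⟩ := h (1 / (2 * β)) (by positivity)
  have hle : B ≤ C.b (C.times X B) (i + 2) := by
    rw [C.b_times]
    have : 1 ≤ C.b X i := Nat.one_le_iff_ne_zero.2 hb
    nlinarith
  refine frobSemisimpleOn_of_nil C X i B ?_ (hB (C.times X B) (by rw [C.dim_times, hX]) hle)
  have h3 : ((C.b (C.times X B) (i + 2) : ℕ) : ℝ) ≤ (B + 1) * β := by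
    rw [C.b_times, hβ]
    push_cast
    have h1 : (0 : ℝ) ≤ C.b X (i + 2) := Nat.cast_nonneg _
    have h2 : (0 : ℝ) ≤ C.b X (i - 2) := Nat.cast_nonneg _
    have h4 : (0 : ℝ) ≤ (B : ℝ) := Nat.cast_nonneg _
    nlinarith [mul_nonneg h4 h1, mul_nonneg h4 h2]
  calc 1 / (2 * β) * (C.b (C.times X B) (i + 2) : ℝ) ≤ 1 / (2 * β) * ((B + 1) * β) :=
        mul_le_mul_of_nonneg_left h3 (by positivity)
    _ = (B + 1) / 2 := by field_simp
    _ < B + 1 := by
        have h4 : (0 : ℝ) ≤ (B : ℝ) := Nat.cast_nonneg _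
        linarith

/-- **Semisimplicity of Frobenius for complete varieties.** -/
theorem complete_main :
    (∀ (X : C.Obj) (i : ℤ) (N : ℕ) (r : ℝ), r < N + 1 →
      FrobNilLe C (C.times X N) (i + 2) r → FrobSemisimpleOn C X i) ∧
    (∀ (n : ℕ) (i : ℤ), FrobNilSublinear C (n + 2) (i + 2) → FrobSemisimple C n i) ∧
    [∀ (n : ℕ) (i : ℤ), FrobSemisimple C n i, ∀ (n : ℕ) (i : ℤ), FrobNilBounded C n i,
      ∀ (n : ℕ) (i : ℤ), FrobNilSublinear C n i].TFAE := by
  refine ⟨fun X i N r hr h => frobSemisimpleOn_of_nil C X i N hr h,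
    fun n i h => frobSemisimple_of_sublinear C h, ?_⟩
  tfae_have 1 → 2 := by
    intro h n i
    refine ⟨0, fun X hX => ?_⟩
    obtain ⟨p, hp, hp0⟩ := h n i X hX
    refine ⟨p, hp, ?_⟩
    have : aeval (C.D.F X i) p = 0 := LinearMap.ext hp0
    rw [this, LinearMap.range_zero, finrank_bot, Nat.cast_zero]
  tfae_have 2 → 3 := by
    intro h n i ε hε
    obtain ⟨B, hB⟩ := h n i
    refine ⟨⌈B / ε⌉₊, fun X hX hb => ?_⟩
    obtain ⟨p, hp, hr⟩ := hB X hX
    refine ⟨p, hp, hr.trans ?_⟩
    have h1 : B / ε ≤ (C.b X i : ℝ) := (Nat.le_ceil _).trans (by exact_mod_cast hb)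
    rw [div_le_iff₀ hε] at h1
    linarith
  tfae_have 3 → 1 := fun h n i => frobSemisimple_of_sublinear C (h (n + 2) (i + 2))
  tfae_finish

end Pool.Agent.V11106.SH
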