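import Mathlib.Algebra.Polynomial.AlgebraMap
import Mathlib.LinearAlgebra.FiniteDimensional.Basic
import Mathlib.Algebra.Squarefree.Basic
import Mathlib.Data.Real.Basic
import Mathlib.LinearAlgebra.Dimension.Constructions

/-!
# Frobenius on the cohomology of complete varieties: definitions
-/

open Polynomial Module

universe u v w

namespace Pool.Agent.V11106.SH

section Alg

variable {K : Type u} [Field K] {A B C V : Type w} [AddCommGroup A] [Module K A]
  [AddCommGroup B] [Module K B] [AddCommGroup C] [Module K C] [AddCommGroup V] [Module K V]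

/-- The linear isomorphism `e` from `V` to the sum of `A`, of `m` copies of `B` and of `C`
identifies the endomorphism `FV` with `FA` on `A`, `q FB` on the copies of `B` and `q ^ 2 FC` on
`C`. -/
def SplitsEnd {m : ℕ} (e : V ≃ₗ[K] A × (Fin m → B) × C) (FV : V →ₗ[K] V) (FA : A →ₗ[K] A)
    (FB : B →ₗ[K] B) (FC : C →ₗ[K] C) (q : K) : Prop :=
  ∀ x, e (FV x) = (FA (e x).1, fun j => q • FB ((e x).2.1 j), q ^ 2 • FC (e x).2.2)

/-- There is such an isomorphism. -/
def HasSplitting (m : ℕ) (FV : V →ₗ[K] V) (FA : A →ₗ[K] A) (FB : B →ₗ[K] B) (FC : C →ₗ[K] C)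
    (q : K) : Prop :=
  ∃ e : V ≃ₗ[K] A × (Fin m → B) × C, SplitsEnd e FV FA FB FC q

/-- The endomorphism `F` is semisimple: `p(F) = 0` for some squarefree polynomial `p`. -/
def IsSemisimpleEnd (F : V →ₗ[K] V) : Prop :=
  ∃ p : K[X], Squarefree p ∧ ∀ x, aeval F p x = 0

/-- For some squarefree polynomial `p` the rank of `p(F)` is at most `r`. (If `K` is perfect, the
smallest such number is the rank of the nilpotent part of the Jordan decomposition of `F`.) -/
def NilRankLe (F : V →ₗ[K] V) (r : ℝ) : Prop :=
  ∃ p : K[X], Squarefree p ∧ (finrank K (LinearMap.range (aeval F p)) : ℝ) ≤ r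

end Alg

/-- Finite-dimensional vector spaces `H X i` with endomorphisms `F`: the cohomology groups of the
varieties `X`, with the Frobenius endomorphism. -/
structure FrobModules (K : Type u) [Field K] (Obj : Type v) where
  /-- the cohomology group of degree `i` -/
  H : Obj → ℤ → Type w
  grp : ∀ X i, AddCommGroup (H X i)
  mod : ∀ X i, Module K (H X i)
  fin : ∀ X i, Module.Finite K (H X i)
  /-- the Frobenius endomorphism -/
  F : ∀ X i, H X i →ₗ[K] H X i

attribute [instance] FrobModules.grp FrobModules.mod FrobModules.fin

/-- The Künneth formula in degree `i + 2` for the product `Y` of `X` and a surface whose cohomology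
has the dimension `1`, `N + 1`, `1` in the degrees `0`, `2`, `4`, with the Frobenius endomorphism
`1`, `q`, `q ^ 2` there. -/
def KunnethFor {K : Type u} [Field K] {Obj : Type v} (D : FrobModules.{u, v, w} K Obj) (q : K)
    (X Y : Obj) (N : ℕ) (i : ℤ) : Prop :=
  HasSplitting (N + 1) (D.F Y (i + 2)) (D.F X (i + 2)) (D.F X i) (D.F X (i - 2)) q

/-- The cohomology with coefficients in `K` of the complete varieties over a finite field (which
need not be smooth), with the Frobenius endomorphism; only the Künneth formula for the products with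
the surfaces obtained from the projective plane by `N` successive blow-ups in rational points is
used. -/
structure CompleteCohomology (K : Type u) [Field K] where
  /-- the complete varieties -/
  Obj : Type v
  /-- the dimension -/
  dim : Obj → ℕ
  /-- the cohomology -/
  D : FrobModules.{u, v, w} K Obj
  /-- the number `q` -/
  q : K
  q_ne : q ≠ 0
  /-- the product of `X` and of a surface obtained by `N` blow-ups of the projective plane -/
  times : Obj → ℕ → Obj
  dim_times : ∀ X N, dim (times X N) = dim X + 2
  /-- the Künneth formula -/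
  kunneth : ∀ X N i, KunnethFor D q X (times X N) N i

variable {K : Type u} [Field K]

/-- The Betti number `b_i(X)`. -/
noncomputable def CompleteCohomology.b (C : CompleteCohomology.{u, v, w} K) (X : C.Obj) (i : ℤ) :
    ℕ := finrank K (C.D.H X i)

/-- The Frobenius endomorphism is semisimple on `H^i(X)`. -/
def FrobSemisimpleOn (C : CompleteCohomology.{u, v, w} K) (X : C.Obj) (i : ℤ) : Prop :=
  IsSemisimpleEnd (C.D.F X i)

/-- The rank of the nilpotent part of the Frobenius endomorphism on `H^i(X)` is at most `r`. -/
def FrobNilLe (C : CompleteCohomology.{u, v, w} K) (X : C.Obj) (i : ℤ) (r : ℝ) : Prop :=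
  NilRankLe (C.D.F X i) r

/-- The Frobenius endomorphism is semisimple on `H^i(X)` for all complete varieties of dimension
`n`. -/
def FrobSemisimple (C : CompleteCohomology.{u, v, w} K) (n : ℕ) (i : ℤ) : Prop :=
  ∀ X : C.Obj, C.dim X = n → FrobSemisimpleOn C X i

/-- The rank of the nilpotent part of the Frobenius endomorphism on `H^i(X)` is bounded, for the
complete varieties `X` of dimension `n`. -/
def FrobNilBounded (C : CompleteCohomology.{u, v, w} K) (n : ℕ) (i : ℤ) : Prop :=
  ∃ B : ℝ, ∀ X : C.Obj, C.dim X = n → FrobNilLe C X i B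

/-- The rank of the nilpotent part of the Frobenius endomorphism on `H^i(X)` is `o(b)`, where `b` is
the Betti number `b_i(X)`, for the complete varieties `X` of dimension `n`. -/
def FrobNilSublinear (C : CompleteCohomology.{u, v, w} K) (n : ℕ) (i : ℤ) : Prop :=
  ∀ ε : ℝ, 0 < ε → ∃ B : ℕ, ∀ X : C.Obj, C.dim X = n → B ≤ C.b X i →
    FrobNilLe C X i (ε * C.b X i)

end Pool.Agent.V11106.SH
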