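import Pool.Agent.V11106.SH.ConivDefs
import Pool.Agent.V11106.SH.Semi2
import Pool.Agent.V11106.SH.AH

/-!
# The generalized Tate conjecture up to errors which are small compared with the Betti number
-/

open CategoryTheory AlgebraicGeometry Polynomial

universe u v

namespace Pool.Agent.V11106.SH

open Pool.Agent.H914 VarClass Obj WeilCohomology Module Pool.Agent.V11106.LB
  Pool.Agent.TH133.PW

section Alg

variable {K V V' : Type*} [Field K] [AddCommGroup V] [Module K V] [AddCommGroup V'] [Module K V']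

lemma comp_ne_zero {c : K} (hc : c ≠ 0) {P : K[X]} (hP : P ≠ 0) : P.comp (C c * X) ≠ 0 := by
  intro h
  apply hP
  have h1 : (P.comp (C c * X)).comp (C c⁻¹ * X) = P := by
    rw [comp_assoc, mul_comp, C_comp, X_comp, ← mul_assoc, ← C_mul, mul_inv_cancel₀ hc, C_1,
      one_mul, comp_X]
  rw [← h1, h, zero_comp]

lemma aeval_scaled (c : K) (P : K[X]) (F : Module.End K V) :
    aeval F (P.comp (C c * X)) = aeval (c • F) P := by
  rw [aeval_comp, map_mul, aeval_C, aeval_X, Algebra.algebraMap_eq_smul_one, smul_mul_assoc,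
    one_mul]

/-- scaling the roots by `q` -/
lemma RootsDivisible.up {q c : K} (hq : q ≠ 0) {P : K[X]} (h : RootsDivisible c P) :
    RootsDivisible (q * c) (P.comp (C q⁻¹ * X)) := by
  intro a ha
  rw [aeval_comp, map_mul, aeval_C, aeval_X] at ha
  obtain ⟨b, hb, hab⟩ := h _ ha
  refine ⟨b, hb, ?_⟩
  have hq' : algebraMap K (AlgebraicClosure K) q ≠ 0 := by
    rwa [Ne, map_eq_zero]
  rw [map_mul, mul_assoc, ← hab, map_inv₀, ← mul_assoc, mul_inv_cancel₀ hq', one_mul]

/-- scaling the roots by `1 / q` -/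
lemma RootsDivisible.down {q c : K} (hq : q ≠ 0) {P : K[X]} (h : RootsDivisible (q * c) P) :
    RootsDivisible c (P.comp (C q * X)) := by
  intro a ha
  rw [aeval_comp, map_mul, aeval_C, aeval_X] at ha
  obtain ⟨b, hb, hab⟩ := h _ ha
  refine ⟨b, hb, ?_⟩
  have hq' : algebraMap K (AlgebraicClosure K) q ≠ 0 := by
    rwa [Ne, map_eq_zero]
  apply mul_left_cancel₀ hq'
  rw [hab, map_mul, mul_assoc]

end Alg

variable {k : Type u} [Field k] {𝒱 : VarClass k} {ops : CycleOps 𝒱}
  {W : WeilCohomology.{u, v} ops} {X Y S T : 𝒱.Obj}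

lemma iota_gr' {e : T.Cycles} (he : T.IsCyc 1 e) {i : ℕ} {x : W.H S} (hx : x ∈ W.gr S i) :
    iota W S e x ∈ W.gr (S.prod T) (i + 2) := by
  rw [iota_apply]
  have := W.mul_mem (W.map_mem (snd S T) (W.cl_mem he)) (W.map_mem (fst S T) hx)
  rwa [show 2 * 1 + i = i + 2 by omega] at this

lemma iota_frobConiveau (G : GaloisLike W Unit) {e : T.Cycles} (he : T.IsCyc 1 e) {r i : ℕ}
    {x : W.H S} (hx : x ∈ frobConiveau G S r i) :
    iota W S e x ∈ frobConiveau G (S.prod T) (r + 1) (i + 2) := by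
  have hq : G.χ () ≠ 0 := (G.act S).ne_zero ()
  obtain ⟨hx1, P, hP, hPr, hPx⟩ := hx
  refine ⟨iota_gr' he hx1, P.comp (C (G.χ ())⁻¹ * X), comp_ne_zero (inv_ne_zero hq) hP, ?_, ?_⟩
  · rw [pow_succ']
    exact hPr.up hq
  · have h1 := aeval_intertwine (F := G.χ () • frob G S) (F' := frob G (S.prod T))
      (ι := iota W S e) (fun y => by
        rw [frob_iota G he, LinearMap.smul_apply, map_smul]) (P.comp (C (G.χ ())⁻¹ * X)) x
    rw [h1, aeval_scaled, smul_smul, inv_mul_cancel₀ hq, one_smul, hPx, map_zero]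

lemma pi_frobConiveau (G : GaloisLike W Unit) (hdim : T.dim = 2) {f : T.Cycles}
    (hf : T.IsCyc 1 f) {r i : ℕ} {y : W.H (S.prod T)}
    (hy : y ∈ frobConiveau G (S.prod T) (r + 1) (i + 2)) : pi W S f y ∈ frobConiveau G S r i := by
  have hq : G.χ () ≠ 0 := (G.act S).ne_zero ()
  obtain ⟨hy1, P, hP, hPr, hPy⟩ := hy
  refine ⟨pi_gr hdim hf hy1, P.comp (C (G.χ ()) * X), comp_ne_zero hq hP, ?_, ?_⟩
  · rw [pow_succ'] at hPr
    exact hPr.down hq
  · rw [aeval_scaled]
    have h1 := aeval_intertwine (F := frob G (S.prod T)) (F' := G.χ () • frob G S)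
      (ι := pi W S f) (fun y => (act_pi G hdim hf () y).symm) P y
    rw [h1, hPy, map_zero]

lemma mem_coniveau {r i j : ℕ} (hij : j + 2 * r = i) {y : W.H X} (hy : y ∈ W.gr X j)
    {ψ : W.H X →ₗ[W.K] W.H Y} (hψ : ψ ∈ KOp W X Y r) : ψ y ∈ coniveau W Y r i := by
  induction hψ using Submodule.span_induction with
  | mem φ hφ =>
    obtain ⟨p, hp, z, hz, rfl⟩ := hφ
    obtain rfl : p = X.dim + r := by omega
    exact Submodule.subset_span ⟨X, j, y, hij, hy, z, hz, rfl⟩
  | zero => rw [LinearMap.zero_apply]; exact Submodule.zero_mem _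
  | add a b _ _ ha hb => rw [LinearMap.add_apply]; exact Submodule.add_mem _ ha hb
  | smul c a _ ha => rw [LinearMap.smul_apply]; exact Submodule.smul_mem _ _ ha

lemma iota_coniveau {e : T.Cycles} (he : T.IsCyc 1 e) {r i : ℕ} {x : W.H S}
    (hx : x ∈ coniveau W S r i) : iota W S e x ∈ coniveau W (S.prod T) (r + 1) (i + 2) := by
  induction hx using Submodule.span_induction with
  | mem x hx =>
    obtain ⟨Z, j, y, hj, hy, z, hz, rfl⟩ := hx
    have hφ : W.corr (W.cl _ z) ∈ KOp W Z S r := KOp.gen (by push_cast; ring) hz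
    have h1 : iota W S e ∘ₗ W.corr (W.cl _ z) ∈ KOp W Z (S.prod T) ((r + 1 : ℕ) : ℤ) :=
      KOp.cast (KOp.comp (iota_mem he) hφ) (by push_cast; ring)
    exact mem_coniveau (by omega) hy h1
  | zero => rw [map_zero]; exact Submodule.zero_mem _
  | add a b _ _ ha hb => rw [map_add]; exact Submodule.add_mem _ ha hb
  | smul c a _ ha => rw [map_smul]; exact Submodule.smul_mem _ _ ha

lemma pi_coniveau (hdim : T.dim = 2) {f : T.Cycles} (hf : T.IsCyc 1 f) {r i : ℕ}
    {y : W.H (S.prod T)} (hy : y ∈ coniveau W (S.prod T) (r + 1) (i + 2)) :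
    pi W S f y ∈ coniveau W S r i := by
  induction hy using Submodule.span_induction with
  | mem x hx =>
    obtain ⟨Z, j, y, hj, hy, z, hz, rfl⟩ := hx
    have hφ : W.corr (W.cl _ z) ∈ KOp W Z (S.prod T) ((r + 1 : ℕ) : ℤ) :=
      KOp.gen (by push_cast; ring) hz
    have h1 : pi W S f ∘ₗ W.corr (W.cl _ z) ∈ KOp W Z S (r : ℤ) :=
      KOp.cast (KOp.comp (pi_mem hf) hφ) (by rw [hdim]; push_cast; ring)
    exact mem_coniveau (by omega) hy h1
  | zero => rw [map_zero]; exact Submodule.zero_mem _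
  | add a b _ _ ha hb => rw [map_add]; exact Submodule.add_mem _ ha hb
  | smul c a _ ha => rw [map_smul]; exact Submodule.smul_mem _ _ ha

/-- From dimension `n + 2` to dimension `n`. -/
theorem generalizedTate_of_sublinear (hT : HasRationalSurfaces W) (G : GaloisLike W Unit)
    {n r i : ℕ} (h : GeneralizedTateSublinear G (n + 2) (r + 1) (i + 2)) :
    GeneralizedTate G n r i := by
  intro S hS
  have h1 : (1 : ℝ) * finrank W.K (frobConiveau G S r i) ≤
      finrank W.K ↥(frobConiveau G S r i ⊓ coniveau W S r i) := by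
    refine share_principle (m := i) hT zero_le_one (fun ε hε => ?_) (fun x hx => hx.1)
    obtain ⟨B, hB⟩ := h ε hε
    refine ⟨B, fun T hT2 hb => ⟨frobConiveau G (S.prod T) (r + 1) (i + 2),
      frobConiveau G (S.prod T) (r + 1) (i + 2) ⊓ coniveau W (S.prod T) (r + 1) (i + 2),
      fun x hx => hx.1, fun e he x hx => iota_frobConiveau G he hx,
      fun f hf y hy => ⟨pi_frobConiveau G hT2 hf hy.1, pi_coniveau hT2 hf hy.2⟩, ?_⟩⟩
    rw [one_mul]
    exact hB (S.prod T) (by rw [dim_prod, hS, hT2]) hb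
  rw [one_mul] at h1
  have h2 : finrank W.K (frobConiveau G S r i) ≤
      finrank W.K ↥(frobConiveau G S r i ⊓ coniveau W S r i) := by exact_mod_cast h1
  exact (Submodule.eq_of_le_of_finrank_le inf_le_left h2).ge.trans inf_le_right

/-- **The generalized Tate conjecture over finite fields.** -/
theorem generalizedTate_main (hT : HasRationalSurfaces W) (G : GaloisLike W Unit) :
    (∀ n r i : ℕ, GeneralizedTateSublinear G (n + 2) (r + 1) (i + 2) →
      GeneralizedTate G n r i) ∧
    [∀ n r i : ℕ, GeneralizedTate G n r i, ∀ n r i : ℕ, GeneralizedTateBounded G n r i,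
      ∀ n r i : ℕ, GeneralizedTateSublinear G n r i].TFAE := by
  refine ⟨fun n r i h => generalizedTate_of_sublinear hT G h, ?_⟩
  tfae_have 1 → 2 := by
    intro h n r i
    refine ⟨0, fun X hX => ?_⟩
    rw [add_zero]
    exact Submodule.finrank_mono (le_inf le_rfl (h n r i X hX))
  tfae_have 2 → 3 := fun h n r i => exceedsSublinear_of_bounded (h n r i)
  tfae_have 3 → 1 := fun h n r i => generalizedTate_of_sublinear hT G (h (n + 2) (r + 1) (i + 2))
  tfae_finish

end Pool.Agent.V11106.SH
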