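import Pool.Agent.V11106.SH.ActDefs

/-!
# Frobenius, semisimplicity and defects: definitions
-/

open CategoryTheory AlgebraicGeometry Polynomial

universe u v w

namespace Pool.Agent.V11106.SH

open Pool.Agent.H914 VarClass Obj WeilCohomology Module Pool.Agent.V11106.LB

section Alg

variable {K V : Type*} [Field K] [AddCommGroup V] [Module K V]

/-- The elements of `U` which are killed by some power of `F - lam`. -/
def genIn (F : Module.End K V) (U : Submodule K V) (lam : K) : Submodule K V :=
  U ⊓ F.maxGenEigenspace lam

/-- Some squarefree polynomial `p` satisfies `p(F) = 0` on `U`; for a subspace `U` which is stable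
under `F` this says that `F` acts semisimply on `U`. -/
def SemisimpleOn (F : Module.End K V) (U : Submodule K V) : Prop :=
  ∃ p : K[X], Squarefree p ∧ ∀ x ∈ U, aeval F p x = 0

/-- For some squarefree polynomial `p` the image of `U` under `p(F)` has dimension at most `B`. (The
smallest such number is the rank on `U` of the nilpotent part of the Jordan decomposition of `F`,
if `U` is stable under `F` and `K` is perfect.) -/
def NilpotentRankAtMost (F : Module.End K V) (U : Submodule K V) (B : ℝ) : Prop :=
  ∃ p : K[X], Squarefree p ∧ (finrank K (U.map (aeval F p)) : ℝ) ≤ B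

end Alg

variable {k : Type u} [Field k] {𝒱 : VarClass k} {ops : CycleOps 𝒱}
  {W : WeilCohomology.{u, v} ops}

/-- The Frobenius endomorphism of the cohomology of `X`; here the action is that of one operator. -/
noncomputable def frob (G : GaloisLike W Unit) (X : 𝒱.Obj) : Module.End W.K (W.H X) :=
  (G.ρ X ()).toLinearMap

/-- The generalized eigenspace of the Frobenius endomorphism on `H^(2 r)(X)` for the eigenvalue
`q ^ r`. -/
noncomputable def genTate (G : GaloisLike W Unit) (X : 𝒱.Obj) (r : ℕ) : Submodule W.K (W.H X) :=
  genIn (frob G X) (W.gr X (2 * r)) (G.χ () ^ r)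

/-- The multiplicity of the eigenvalue `q ^ r` of the Frobenius endomorphism on `H^(2 r)(X)`. (By
the theorem of Deligne it is the order of the pole of the zeta function of `X` at `s = r`.) -/
noncomputable def multiplicity (G : GaloisLike W Unit) (X : 𝒱.Obj) (r : ℕ) : ℕ :=
  finrank W.K (genTate G X r)

/-- For all varieties of dimension `n`: the eigenvalue `q ^ r` of the Frobenius endomorphism on
`H^(2 r)` is semisimple (its generalized eigenspace is its eigenspace). -/
def EigenvalueSemisimple (G : GaloisLike W Unit) (n r : ℕ) : Prop :=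
  ∀ X : 𝒱.Obj, X.dim = n → genTate G X r ≤ tate G X r

/-- For all varieties of dimension `n`: the Tate classes of codimension `r` are algebraic and the
eigenvalue `q ^ r` is semisimple, that is, the generalized eigenspace is spanned by the classes of
the cycles of codimension `r`. -/
def TateAndSemisimple (G : GaloisLike W Unit) (n r : ℕ) : Prop :=
  ∀ X : 𝒱.Obj, X.dim = n → genTate G X r ≤ spanCycles W X r

/-- For the varieties of dimension `n` the multiplicity is at most the number `d X` plus an error
`o(b)`, where `b` is the Betti number `b_(2 r)`. -/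
def MultiplicityUpToSublinear (G : GaloisLike W Unit) (d : 𝒱.Obj → ℕ) (n r : ℕ) : Prop :=
  ∀ ε : ℝ, 0 < ε → ∃ B : ℕ, ∀ X : 𝒱.Obj, X.dim = n → B ≤ W.betti X (2 * r) →
    (multiplicity G X r : ℝ) ≤ d X + ε * W.betti X (2 * r)

/-- The same with a bounded error. -/
def MultiplicityUpToBounded (G : GaloisLike W Unit) (d : 𝒱.Obj → ℕ) (n r : ℕ) : Prop :=
  ∃ D : ℕ, ∀ X : 𝒱.Obj, X.dim = n → multiplicity G X r ≤ d X + D

/-- The Frobenius endomorphism acts semisimply on `H^i` for all varieties of dimension `n`. -/
def FrobeniusSemisimple (G : GaloisLike W Unit) (n i : ℕ) : Prop :=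
  ∀ X : 𝒱.Obj, X.dim = n → SemisimpleOn (frob G X) (W.gr X i)

/-- For the varieties of dimension `n` the rank of the nilpotent part of the Frobenius endomorphism
on `H^i` is bounded. -/
def NilpotentRankBounded (G : GaloisLike W Unit) (n i : ℕ) : Prop :=
  ∃ B : ℝ, ∀ X : 𝒱.Obj, X.dim = n → NilpotentRankAtMost (frob G X) (W.gr X i) B

/-- For the varieties of dimension `n` the rank of the nilpotent part of the Frobenius endomorphism
on `H^i` is `o(b)`, where `b` is the Betti number `b_i`. -/
def NilpotentRankSublinear (G : GaloisLike W Unit) (n i : ℕ) : Prop :=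
  ∀ ε : ℝ, 0 < ε → ∃ B : ℕ, ∀ X : 𝒱.Obj, X.dim = n → B ≤ W.betti X i →
    NilpotentRankAtMost (frob G X) (W.gr X i) (ε * W.betti X i)

end Pool.Agent.V11106.SH
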