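import Pool.Agent.V11106.SH.AHDefs
import Pool.Agent.V11106.SH.SemiDefs
import Pool.Agent.H914R2.KCorr

/-!
# Coniveau and eigenvalues of Frobenius: definitions
-/

open CategoryTheory AlgebraicGeometry Polynomial

universe u v

namespace Pool.Agent.V11106.SH

open Pool.Agent.H914 VarClass Obj WeilCohomology Module

section Alg

variable {K V : Type*} [Field K] [AddCommGroup V] [Module K V]

/-- The element `a` of a field is the product of `c` and an algebraic integer. -/
def DivisibleBy {L : Type*} [Field L] (c a : L) : Prop := ∃ b : L, IsIntegral ℤ b ∧ a = c * b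

/-- All roots of the polynomial `P` in an algebraic closure of `K` are products of `c` and an
algebraic integer. -/
def RootsDivisible (c : K) (P : K[X]) : Prop :=
  ∀ a : AlgebraicClosure K, aeval a P = 0 → DivisibleBy (algebraMap K (AlgebraicClosure K) c) a

/-- `P(F) x = 0` for some polynomial `P ≠ 0` all of whose roots are products of `c` and an algebraic
integer. -/
def KilledBy (F : Module.End K V) (c : K) (x : V) : Prop :=
  ∃ P : K[X], P ≠ 0 ∧ RootsDivisible c P ∧ aeval F P x = 0

lemma KilledBy.add {F : Module.End K V} {c : K} {x y : V} (hx : KilledBy F c x)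
    (hy : KilledBy F c y) : KilledBy F c (x + y) := by
  obtain ⟨P, hP, hPr, hPx⟩ := hx
  obtain ⟨Q, hQ, hQr, hQy⟩ := hy
  refine ⟨P * Q, mul_ne_zero hP hQ, ?_, ?_⟩
  · intro a ha
    rw [map_mul] at ha
    rcases mul_eq_zero.1 ha with h | h
    · exact hPr a h
    · exact hQr a h
  · have h1 : aeval F (P * Q) x = 0 := by
      rw [mul_comm, map_mul, Module.End.mul_apply, hPx, map_zero]
    have h2 : aeval F (P * Q) y = 0 := by
      rw [map_mul, Module.End.mul_apply, hQy, map_zero]
    rw [map_add, h1, h2, add_zero]

lemma KilledBy.zero {F : Module.End K V} {c : K} : KilledBy F c 0 := by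
  refine ⟨1, one_ne_zero, ?_, map_zero _⟩
  intro a ha
  rw [map_one] at ha
  exact absurd ha one_ne_zero

lemma KilledBy.smul {F : Module.End K V} {c : K} {x : V} (t : K) (hx : KilledBy F c x) :
    KilledBy F c (t • x) := by
  obtain ⟨P, hP, hPr, hPx⟩ := hx
  exact ⟨P, hP, hPr, by rw [map_smul, hPx, smul_zero]⟩

/-- The elements `x` of `U` with `P(F) x = 0` for some polynomial `P ≠ 0` all of whose roots are
products of `c` and an algebraic integer. In other words: the sum of the generalized eigenspaces of
`F` on `U` (over an algebraic closure) for the eigenvalues `a` such that `a / c` is an algebraic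
integer. -/
def divisibleIn (F : Module.End K V) (U : Submodule K V) (c : K) : Submodule K V where
  carrier := {x | x ∈ U ∧ KilledBy F c x}
  add_mem' := fun hx hy => ⟨U.add_mem hx.1 hy.1, hx.2.add hy.2⟩
  zero_mem' := ⟨U.zero_mem, KilledBy.zero⟩
  smul_mem' := fun t _ hx => ⟨U.smul_mem t hx.1, hx.2.smul t⟩

/-- The dimension of the intersection of two subspaces. -/
noncomputable def interDim (U U' : Submodule K V) : ℕ := finrank K ↥(U ⊓ U')

end Alg

variable {k : Type u} [Field k] {𝒱 : VarClass k} {ops : CycleOps 𝒱}
  {W : WeilCohomology.{u, v} ops}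

/-- The class `x` on `X` is the image of the class `y` on `Z` under the correspondence of a cycle of
codimension `p` on `Z × X`. -/
def ImageByCycle (W : WeilCohomology.{u, v} ops) (Z X : 𝒱.Obj) (p : ℕ) (y : W.H Z) (x : W.H X) :
    Prop :=
  ∃ z : (Z.prod X).Cycles, (Z.prod X).IsCyc p z ∧ W.corr (W.cl (Z.prod X) z) y = x

/-- The class `x` is the image of a class `y` of degree `j`, where `j + 2 r = i`, on some variety
`Z` under an algebraic correspondence of degree `r` from `Z` to `X`, that is, a cycle of
codimension `dim Z + r` on `Z × X`. -/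
def FromCodim (W : WeilCohomology.{u, v} ops) (X : 𝒱.Obj) (r i : ℕ) (x : W.H X) : Prop :=
  ∃ (Z : 𝒱.Obj) (j : ℕ) (y : W.H Z), j + 2 * r = i ∧ y ∈ W.gr Z j ∧
    ImageByCycle W Z X (Z.dim + r) y x

/-- The part of coniveau `r` of `H^i(X)`: the span of the images of the cohomology of all
varieties `Z` in degree `i - 2 r` under algebraic correspondences of degree `r` from `Z` to `X`. -/
def coniveau (W : WeilCohomology.{u, v} ops) (X : 𝒱.Obj) (r i : ℕ) : Submodule W.K (W.H X) :=
  Submodule.span W.K {x | FromCodim W X r i x}

/-- The part of `H^i(X)` on which the eigenvalues of the Frobenius endomorphism are products of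
`q ^ r` and algebraic integers. (By the theorem of Deligne and duality it is the sum of the
subrepresentations `V` of `H^i(X)` such that `V(r)` is effective.) -/
noncomputable def frobConiveau (G : GaloisLike W Unit) (X : 𝒱.Obj) (r i : ℕ) :
    Submodule W.K (W.H X) :=
  divisibleIn (frob G X) (W.gr X i) (G.χ () ^ r)

/-- The dimension of the part of `H^i(X)` given by the eigenvalues. -/
noncomputable def frobConiveauDim (G : GaloisLike W Unit) (X : 𝒱.Obj) (r i : ℕ) : ℕ :=
  finrank W.K (frobConiveau G X r i)

/-- The dimension of its intersection with the part of coniveau `r`. (By the theorem of Deligne the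
part of coniveau `r` is contained in it.) -/
noncomputable def coniveauDim (G : GaloisLike W Unit) (X : 𝒱.Obj) (r i : ℕ) : ℕ :=
  interDim (frobConiveau G X r i) (coniveau W X r i)

/-- For all varieties `X` of dimension `n` the part of `H^i(X)` given by the eigenvalues which are
products of `q ^ r` and algebraic integers is contained in the part of coniveau `r`. -/
def GeneralizedTate (G : GaloisLike W Unit) (n r i : ℕ) : Prop :=
  ∀ X : 𝒱.Obj, X.dim = n → frobConiveau G X r i ≤ coniveau W X r i

/-- The same up to a bounded error of the dimensions. -/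
def GeneralizedTateBounded (G : GaloisLike W Unit) (n r i : ℕ) : Prop :=
  ExceedsBounded (fun X => frobConiveauDim G X r i) (fun X => coniveauDim G X r i) n

/-- The same up to an error of the dimensions which is `o(b)`, where `b` is the Betti number
`b_i`. -/
def GeneralizedTateSublinear (G : GaloisLike W Unit) (n r i : ℕ) : Prop :=
  ExceedsSublinear W (fun X => frobConiveauDim G X r i) (fun X => coniveauDim G X r i) n i

end Pool.Agent.V11106.SH
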