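import Pool.Agent.V11106.SH.KunDefs
import Pool.Agent.V11106.SH.Engine
import Pool.Agent.TH133.PW.Kun

/-!
# Kunneth projectors up to errors of small rank
-/

open CategoryTheory AlgebraicGeometry

universe u v

namespace Pool.Agent.V11106.SH

open Pool.Agent.H914 VarClass Obj WeilCohomology Module Pool.Agent.V11106.LB
  Pool.Agent.TH133.PW Pool.Agent.H447

variable {k : Type u} [Field k] {𝒱 : VarClass k} {ops : CycleOps 𝒱}
  {W : WeilCohomology.{u, v} ops} {X Y S T : 𝒱.Obj}

/-- If a stable subspace on `S` is not stable under `PS`, then the rank of the error on `S × T` is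
large. -/
lemma rank_ge {N : ℕ} {e f : Fin N → T.Cycles} {o : T.Cycles} (hR : Rat W T e f o)
    {N₀ : Submodule W.K (W.H S)} (hN₀ : ∀ ψ ∈ KOp W S S 0, ∀ y ∈ N₀, ψ y ∈ N₀)
    {PS : W.H S →ₗ[W.K] W.H S} {x : W.H S} (hx : x ∈ N₀) (hPx : PS x ∉ N₀)
    {PY : W.H (S.prod T) →ₗ[W.K] W.H (S.prod T)}
    (hPY : ∀ j, PY (iota W S (e j) x) = iota W S (e j) (PS x))
    {φ : W.H (S.prod T) →ₗ[W.K] W.H (S.prod T)} (hφ : φ ∈ KOp W (S.prod T) (S.prod T) 0) :
    N ≤ finrank W.K (LinearMap.range (φ - PY)) := by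
  set g : (Fin N → W.K) →ₗ[W.K] W.H (S.prod T) :=
    (φ - PY) ∘ₗ Fintype.linearCombination W.K (fun j => iota W S (e j) x) with hg
  have hgc : ∀ c : Fin N → W.K, g c = ∑ j, c j • (φ (iota W S (e j) x) -
      iota W S (e j) (PS x)) := by
    intro c
    rw [hg, LinearMap.comp_apply, Fintype.linearCombination_apply, map_sum]
    refine Finset.sum_congr rfl fun j _ => ?_
    rw [map_smul, LinearMap.sub_apply, hPY]
  have hinj : Function.Injective g := by
    rw [injective_iff_map_eq_zero]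
    intro c hc
    funext l
    by_contra hl
    have h1 := congrArg (pi W S (f l)) hc
    rw [hgc, map_sum, map_zero] at h1
    have h2 : ∑ j, pi W S (f l) (c j • (φ (iota W S (e j) x) - iota W S (e j) (PS x))) =
        (∑ j, c j • pi W S (f l) (φ (iota W S (e j) x))) - c l • PS x := by
      have h3 : ∀ j, pi W S (f l) (c j • (φ (iota W S (e j) x) - iota W S (e j) (PS x))) =
          c j • pi W S (f l) (φ (iota W S (e j) x)) - if j = l then c l • PS x else 0 := by
        intro j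
        rw [map_smul, map_sub, smul_sub, pi_iota (hR.he j) (hR.hf l), hR.dual]
        split_ifs with hjl
        · rw [one_smul, hjl]
        · rw [zero_smul, smul_zero]
      rw [Finset.sum_congr rfl fun j _ => h3 j, Finset.sum_sub_distrib]
      congr 1
      simp
    rw [h2, sub_eq_zero] at h1
    apply hPx
    have h4 : c l • PS x ∈ N₀ := by
      rw [← h1]
      refine Submodule.sum_mem _ fun j _ => Submodule.smul_mem _ _ ?_
      exact hN₀ _ (KOp.cast (KOp.comp (pi_mem (hR.hf l)) (KOp.comp hφ (iota_mem (hR.he j))))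
        (by rw [hR.dim]; push_cast)) x hx
    have h5 := N₀.smul_mem (c l)⁻¹ h4
    rwa [smul_smul, inv_mul_cancel₀ hl, one_smul] at h5
  have h6 : finrank W.K (LinearMap.range g) = N := by
    rw [LinearMap.finrank_range_of_inj hinj, Module.finrank_fin_fun]
  rw [← h6]
  apply Submodule.finrank_mono
  rw [hg]
  exact LinearMap.range_comp_le_range _ _

/-- From small ranks on the products with surfaces to stability. -/
theorem stable_of_sublinear (hT : HasRationalSurfaces W) {S : 𝒱.Obj}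
    {PS : W.H S →ₗ[W.K] W.H S}
    (h : ∀ ε : ℝ, 0 < ε → ∃ B : ℕ, ∀ T : 𝒱.Obj, T.dim = 2 → B ≤ totalBetti W (S.prod T) →
      ∃ PY : W.H (S.prod T) →ₗ[W.K] W.H (S.prod T),
        (∀ e : T.Cycles, T.IsCyc 1 e → ∀ x, PY (iota W S e x) = iota W S e (PS x)) ∧
        WithinRank (cycleOperators W (S.prod T) (S.prod T).dim) PY
          (ε * totalBetti W (S.prod T)))
    {N₀ : Submodule W.K (W.H S)} (hN₀ : ∀ ψ ∈ KOp W S S 0, ∀ y ∈ N₀, ψ y ∈ N₀)
    {x : W.H S} (hx : x ∈ N₀) : PS x ∈ N₀ := by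
  by_contra hPx
  set b := finrank W.K (W.H S) with hb
  obtain ⟨B, hB⟩ := h (1 / (2 * (b + 1))) (by positivity)
  set N := B + 4 with hN
  obtain ⟨T, hTN⟩ := hT N
  obtain ⟨e, f, o, hR⟩ := rat_of' hTN
  have hx0 : x ≠ 0 := by
    rintro rfl
    exact hPx (by rw [map_zero]; exact N₀.zero_mem)
  have hbet : N ≤ totalBetti W (S.prod T) := by
    have h1 := le_finrank hR (V := Submodule.span W.K {x}) (TY := ⊤)
      fun _ _ _ => Submodule.mem_top
    rwa [finrank_span_singleton hx0, mul_one, finrank_top] at h1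
  obtain ⟨PY, hPY, φ, hφ, hφ'⟩ := hB T hR.dim (by omega)
  rw [span_cycleOperators0] at hφ
  have h2 := rank_ge hR hN₀ hx hPx (PY := PY) (fun j => hPY _ (hR.he j) x) hφ
  have h3 : totalBetti W (S.prod T) ≤ (N + 2) * b := hR.finrank_le (S := S)
  have h4 : (N : ℝ) ≤ 1 / (2 * ((b : ℝ) + 1)) * ((N + 2) * b) := by
    have h5 : (N : ℝ) ≤ 1 / (2 * ((b : ℝ) + 1)) * totalBetti W (S.prod T) := by
      refine le_trans ?_ hφ'
      exact_mod_cast h2
    refine h5.trans (mul_le_mul_of_nonneg_left ?_ (by positivity))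
    exact_mod_cast h3
  have h7 : 1 / (2 * ((b : ℝ) + 1)) * ((N + 2) * b) ≤ (N + 2) / 2 := by
    rw [div_mul_eq_mul_div, one_mul, div_le_div_iff₀ (by positivity) (by norm_num)]
    have : (0 : ℝ) ≤ N + 2 := by positivity
    nlinarith
  have h8 : (N : ℝ) = B + 4 := by rw [hN]; push_cast; ring
  have h9 : (0 : ℝ) ≤ B := by positivity
  linarith

lemma iota_gr {e : T.Cycles} (he : T.IsCyc 1 e) {i : ℕ} {x : W.H S} (hx : x ∈ W.gr S i) :
    iota W S e x ∈ W.gr (S.prod T) (i + 2) := by
  rw [iota_apply]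
  have := W.mul_mem (W.map_mem (snd S T) (W.cl_mem he)) (W.map_mem (fst S T) hx)
  rwa [show 2 * 1 + i = i + 2 by omega] at this

/-- **The projectors.** -/
theorem projectorExact_of_sublinear (hT : HasRationalSurfaces W) {n i : ℕ}
    (h : ProjectorUpToSublinear W (n + 2) (i + 2)) : ProjectorExact W n i := by
  intro S hS
  have hiff : ProjectorInSpan (W.gr S) i (cycleOperators W S S.dim) ↔
      StableSplit (W.gr S) i (cycleOperators W S S.dim) :=
    (kunneth_span_tfae (W := W) (X := S) i).out 0 3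
  refine hiff.2 ?_
  intro N₀ hN₀ P hP x hx
  have hst : ∀ ψ ∈ KOp W S S 0, ∀ y ∈ N₀, ψ y ∈ N₀ := by
    intro ψ hψ
    rw [← span_cycleOperators0] at hψ
    induction hψ using Submodule.span_induction with
    | mem φ hφ => exact hN₀ φ hφ
    | zero => exact fun x _ => Submodule.zero_mem _
    | add φ ψ _ _ h1 h2 => exact fun x hx => Submodule.add_mem _ (h1 x hx) (h2 x hx)
    | smul a φ _ h => exact fun x hx => Submodule.smul_mem _ _ (h x hx)
  refine stable_of_sublinear hT (PS := P) (fun ε hε => ?_) hst hx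
  obtain ⟨B, hB⟩ := h ε hε
  refine ⟨B, fun T hT2 hb => ?_⟩
  obtain ⟨PY, hPY, hw⟩ := hB (S.prod T) (by rw [dim_prod, hS, hT2]) hb
  refine ⟨PY, fun e he x => ?_, hw⟩
  refine gr_induction (W.isInternal S) (p := fun x => PY (iota W S e x) = iota W S e (P x))
    ?_ ?_ x
  · intro j a ha
    rw [hPY (j + 2) _ (iota_gr he ha), hP j a ha]
    by_cases hj : j = i
    · rw [if_pos hj, if_pos (by omega)]
    · rw [if_neg hj, if_neg (by omega), map_zero]
  · intro a a' ha ha'
    rw [map_add, map_add, ha, ha', map_add, map_add]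

lemma projectorUpToBounded_of_exact {n i : ℕ} (h : ProjectorExact W n i) :
    ProjectorUpToBounded W n i := by
  refine ⟨0, fun X hX => ?_⟩
  obtain ⟨P, hP, hP'⟩ := h X hX
  refine ⟨P, hP', P, hP, ?_⟩
  rw [sub_self, LinearMap.range_zero, finrank_bot, Nat.cast_zero]

lemma projectorUpToSublinear_of_bounded {n i : ℕ} (h : ProjectorUpToBounded W n i) :
    ProjectorUpToSublinear W n i := by
  obtain ⟨B, hB⟩ := h
  intro ε hε
  refine ⟨⌈B / ε⌉₊, fun X hX hb => ?_⟩
  obtain ⟨P, hP, φ, hφ, h1⟩ := hB X hX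
  refine ⟨P, hP, φ, hφ, h1.trans ?_⟩
  have h2 : B / ε ≤ (totalBetti W X : ℝ) := (Nat.le_ceil _).trans (by exact_mod_cast hb)
  rw [div_le_iff₀ hε] at h2
  linarith

/-- **Kunneth projectors up to errors of small rank.** -/
theorem projector_main (hT : HasRationalSurfaces W) :
    (∀ n i : ℕ, ProjectorUpToSublinear W (n + 2) (i + 2) → ProjectorExact W n i) ∧
    [∀ n i : ℕ, ProjectorExact W n i, ∀ n i : ℕ, ProjectorUpToBounded W n i,
      ∀ n i : ℕ, ProjectorUpToSublinear W n i].TFAE := by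
  refine ⟨fun n i h => projectorExact_of_sublinear hT h, ?_⟩
  tfae_have 1 → 2 := fun h n i => projectorUpToBounded_of_exact (h n i)
  tfae_have 2 → 3 := fun h n i => projectorUpToSublinear_of_bounded (h n i)
  tfae_have 3 → 1 := fun h n i => projectorExact_of_sublinear hT (h (n + 2) (i + 2))
  tfae_finish

/-- One projector for all theories, from one theory in dimension `n + 2`. -/
theorem oneProjector_of_sublinear (hT : HasRationalSurfaces W)
    {𝒲 : Set (WeilCohomology.{u, v} ops)} (hW : W ∈ 𝒲) {n i : ℕ}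
    (h : ProjectorUpToSublinear W (n + 2) (i + 2)) (hX : X.dim = n) (h𝒲 : SameTracesAll 𝒲 X) :
    OneProjectorForAll 𝒲 X i :=
  oneProjector_of_span h𝒲 hW (projectorExact_of_sublinear hT h X hX)

end Pool.Agent.V11106.SH
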