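import Pool.Agent.V11106.LB.Defs
import Pool.Agent.TH133.PW.EvDefs

/-!
# Kunneth projectors up to errors of small rank: definitions
-/

open CategoryTheory AlgebraicGeometry

universe u v

namespace Pool.Agent.V11106.SH

open Pool.Agent.H914 VarClass Obj WeilCohomology Module Pool.Agent.TH133.PW Pool.Agent.H447

section Alg

variable {K V : Type*} [Field K] [AddCommGroup V] [Module K V]

/-- Some linear combination of the operators in `S` differs from `Q` by an operator of rank at
most `B`. -/
def WithinRank (S : Set (V →ₗ[K] V)) (Q : V →ₗ[K] V) (B : ℝ) : Prop :=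
  ∃ φ ∈ Submodule.span K S, (finrank K (LinearMap.range (φ - Q)) : ℝ) ≤ B

/-- The projector onto `gr i` is a combination of the operators in `S` up to an error of rank at
most `B`. -/
def ProjectorWithin (gr : ℕ → Submodule K V) (i : ℕ) (S : Set (V →ₗ[K] V)) (B : ℝ) : Prop :=
  ∃ P : V →ₗ[K] V, IsProjector gr i P ∧ WithinRank S P B

/-- The projector onto the sum of the `gr i`, `i` even, is a combination of the operators in `S` up
to an error of rank at most `B`. -/
def EvenProjWithin (gr : ℕ → Submodule K V) (S : Set (V →ₗ[K] V)) (B : ℝ) : Prop :=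
  ∃ P : V →ₗ[K] V, IsEvenProj gr P ∧ WithinRank S P B

end Alg

variable {k : Type u} [Field k] {𝒱 : VarClass k} {ops : CycleOps 𝒱}

/-- The sum of the Betti numbers of `X`. -/
noncomputable def totalBetti (W : WeilCohomology.{u, v} ops) (X : 𝒱.Obj) : ℕ :=
  finrank W.K (W.H X)

/-- For all varieties `X` of dimension `n` the projector onto `H^i(X)` is a combination, with
coefficients in `K`, of algebraic correspondences. -/
def ProjectorExact (W : WeilCohomology.{u, v} ops) (n i : ℕ) : Prop :=
  ∀ X : 𝒱.Obj, X.dim = n → ProjectorInSpan (W.gr X) i (cycleOperators W X X.dim)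

/-- The same up to errors whose rank is bounded, for the varieties of dimension `n`. -/
def ProjectorUpToBounded (W : WeilCohomology.{u, v} ops) (n i : ℕ) : Prop :=
  ∃ B : ℝ, ∀ X : 𝒱.Obj, X.dim = n → ProjectorWithin (W.gr X) i (cycleOperators W X X.dim) B

/-- The same up to errors whose rank is `o(b)`, where `b` is the sum of the Betti numbers. -/
def ProjectorUpToSublinear (W : WeilCohomology.{u, v} ops) (n i : ℕ) : Prop :=
  ∀ ε : ℝ, 0 < ε → ∃ B : ℕ, ∀ X : 𝒱.Obj, X.dim = n → B ≤ totalBetti W X →
    ProjectorWithin (W.gr X) i (cycleOperators W X X.dim) (ε * totalBetti W X)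

/-- For all varieties `X` of dimension `n` the projector onto the even cohomology of `X` is induced
by a cycle on `X × X` with rational coefficients. -/
def SignExact (W : WeilCohomology.{u, v} ops) (n : ℕ) : Prop :=
  ∀ X : 𝒱.Obj, X.dim = n → SignStd W X

/-- For the varieties of dimension `n` the projector onto the even cohomology is a combination, with
coefficients in `K`, of algebraic correspondences up to errors whose rank is bounded. -/
def SignUpToBounded (W : WeilCohomology.{u, v} ops) (n : ℕ) : Prop :=
  ∃ B : ℝ, ∀ X : 𝒱.Obj, X.dim = n → EvenProjWithin (W.gr X) (cycleOperators W X X.dim) B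

/-- The same up to errors whose rank is `o(b)`, where `b` is the sum of the Betti numbers. -/
def SignUpToSublinear (W : WeilCohomology.{u, v} ops) (n : ℕ) : Prop :=
  ∀ ε : ℝ, 0 < ε → ∃ B : ℕ, ∀ X : 𝒱.Obj, X.dim = n → B ≤ totalBetti W X →
    EvenProjWithin (W.gr X) (cycleOperators W X X.dim) (ε * totalBetti W X)

end Pool.Agent.V11106.SH
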