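import Pool.Agent.V11106.SH.ActDefs

/-!
# Semisimplicity of Galois representations and socles: definitions
-/

open CategoryTheory AlgebraicGeometry

universe u v w

namespace Pool.Agent.V11106.SH

open Pool.Agent.H914 VarClass Obj WeilCohomology Module

section Alg

variable {K A : Type*} [Field K] [Ring A] [Algebra K A] {Γ : Type*}

/-- The subspace `U` is stable under all `ρ g`. -/
def StableUnder (ρ : Γ → (A →ₐ[K] A)) (U : Submodule K A) : Prop := ∀ g, ∀ x ∈ U, ρ g x ∈ U

/-- The subspace `U` is stable under all `ρ g`, and every stable subspace `V` of `U` has a stable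
complement in `U`. -/
def SemisimpleSub (ρ : Γ → (A →ₐ[K] A)) (U : Submodule K A) : Prop :=
  StableUnder ρ U ∧ ∀ V ≤ U, StableUnder ρ V → ∃ V' ≤ U, StableUnder ρ V' ∧ V ⊓ V' = ⊥ ∧
    V ⊔ V' = U

/-- The subspace `U` contains a semisimple stable subspace of codimension at most `B`. -/
def SocleCodimAtMost (ρ : Γ → (A →ₐ[K] A)) (U : Submodule K A) (B : ℝ) : Prop :=
  ∃ V ≤ U, SemisimpleSub ρ V ∧ (finrank K U : ℝ) ≤ finrank K V + B

end Alg

variable {k : Type u} [Field k] {𝒱 : VarClass k} {ops : CycleOps 𝒱}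
  {W : WeilCohomology.{u, v} ops} {Γ : Type w}

/-- The representation `H^i(X)` is semisimple for all varieties `X` of dimension `n`. -/
def RepSemisimple (G : GaloisLike W Γ) (n i : ℕ) : Prop :=
  ∀ X : 𝒱.Obj, X.dim = n → SemisimpleSub (G.ρ X) (W.gr X i)

/-- The representation `H^i(X)` contains a semisimple subrepresentation of bounded codimension, for
the varieties of dimension `n`. -/
def SocleCodimBounded (G : GaloisLike W Γ) (n i : ℕ) : Prop :=
  ∃ B : ℝ, ∀ X : 𝒱.Obj, X.dim = n → SocleCodimAtMost (G.ρ X) (W.gr X i) B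

/-- The representation `H^i(X)` contains a semisimple subrepresentation of codimension `o(b)`, where
`b` is the Betti number `b_i(X)`, for the varieties of dimension `n`. -/
def SocleCodimSublinear (G : GaloisLike W Γ) (n i : ℕ) : Prop :=
  ∀ ε : ℝ, 0 < ε → ∃ B : ℕ, ∀ X : 𝒱.Obj, X.dim = n → B ≤ W.betti X i →
    SocleCodimAtMost (G.ρ X) (W.gr X i) (ε * W.betti X i)

end Pool.Agent.V11106.SH
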