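import Pool.Agent.V11106.SH.Comp
import Mathlib.LinearAlgebra.Eigenspace.Basic

/-!
# One eigenvalue of Frobenius on the second cohomology of surfaces
-/

open Polynomial Module

universe u v w

namespace Pool.Agent.V11106.SH

section Alg

variable {K : Type u} [Field K] {A B C V : Type w} [AddCommGroup A] [Module K A]
  [AddCommGroup B] [Module K B] [AddCommGroup C] [Module K C] [AddCommGroup V] [Module K V]

/-- The dimension of the image of the generalized eigenspace of `F` for `a` under `F - a`. It is the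
difference of the dimensions of the generalized eigenspace and of the eigenspace. -/
noncomputable def jordanDefect (F : Module.End K V) (a : K) : ℕ :=
  finrank K ((F.maxGenEigenspace a).map (F - algebraMap K (Module.End K V) a))

/-- The generalized eigenspace of `F` for `a` is the eigenspace. -/
def EigenSemisimple (F : Module.End K V) (a : K) : Prop := F.maxGenEigenspace a ≤ F.eigenspace a

lemma inc_pow {m : ℕ} {e : V ≃ₗ[K] A × (Fin m → B) × C} {FV : V →ₗ[K] V} {FA : A →ₗ[K] A}
    {FB : B →ₗ[K] B} {FC : C →ₗ[K] C} {q : K} (h : SplitsEnd e FV FA FB FC q) (j : Fin m)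
    (a : K) (x : B) :
    ((FV : Module.End K V) - algebraMap K _ (q * a)) (splitInc e j x) =
      splitInc e j (q • ((FB : Module.End K B) - algebraMap K _ a) x) := by
  rw [LinearMap.sub_apply, LinearMap.sub_apply, F_splitInc h, Module.algebraMap_end_apply,
    Module.algebraMap_end_apply, smul_sub, map_sub, LinearMap.smul_apply, smul_smul,
    map_smul (splitInc e j) (q * a) x]

lemma inc_pow_n {m : ℕ} {e : V ≃ₗ[K] A × (Fin m → B) × C} {FV : V →ₗ[K] V} {FA : A →ₗ[K] A}
    {FB : B →ₗ[K] B} {FC : C →ₗ[K] C} {q : K} (h : SplitsEnd e FV FA FB FC q) (j : Fin m)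
    (a : K) (n : ℕ) : ∀ x : B,
    (((FV : Module.End K V) - algebraMap K _ (q * a)) ^ n) (splitInc e j x) =
      splitInc e j (q ^ n • (((FB : Module.End K B) - algebraMap K _ a) ^ n) x) := by
  induction n with
  | zero => intro x; simp
  | succ n ih =>
    intro x
    rw [pow_succ', Module.End.mul_apply, ih, inc_pow h, pow_succ' q n,
      pow_succ' ((FB : Module.End K B) - algebraMap K _ a) n, Module.End.mul_apply]
    simp only [map_smul, smul_smul]

/-- If the defect is less than `m` then the eigenvalue is semisimple. -/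
theorem eigenSemisimple_of_splits [Module.Finite K V] {m : ℕ} {FV : V →ₗ[K] V} {FA : A →ₗ[K] A}
    {FB : B →ₗ[K] B} {FC : C →ₗ[K] C} {q : K} (hq : q ≠ 0) (h : HasSplitting m FV FA FB FC q)
    {a : K} (hd : jordanDefect FV (q * a) < m) : EigenSemisimple FB a := by
  obtain ⟨e, he⟩ := h
  intro x hx
  rw [Module.End.mem_eigenspace_iff]
  by_contra hne
  set y : B := ((FB : Module.End K B) - algebraMap K _ a) x with hy
  have hy0 : y ≠ 0 := by
    intro h0
    apply hne
    rw [hy, LinearMap.sub_apply, Module.algebraMap_end_apply, sub_eq_zero] at h0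
    exact h0
  have hmem : ∀ j, splitInc e j y ∈ (Module.End.maxGenEigenspace FV (q * a)).map
      (FV - algebraMap K (Module.End K V) (q * a)) := by
    intro j
    refine ⟨splitInc e j (q⁻¹ • x), ?_, ?_⟩
    · rw [SetLike.mem_coe, Module.End.mem_maxGenEigenspace] at *
      obtain ⟨n, hn⟩ := hx
      refine ⟨n, ?_⟩
      have h1 := inc_pow_n he j a n (q⁻¹ • x)
      rw [Algebra.algebraMap_eq_smul_one, Algebra.algebraMap_eq_smul_one] at h1
      rw [h1]
      simp only [map_smul, hn, smul_zero, map_zero]
    · rw [inc_pow he]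
      simp only [map_smul, smul_smul, mul_inv_cancel₀ hq, one_smul, hy]
  let L : (Fin m → K) →ₗ[K] V := (Fintype.linearCombination K fun j => splitInc e j y)
  have hL : ∀ c, L c = ∑ j, c j • splitInc e j y := fun c => rfl
  have hk : ∀ c l, (e (L c)).2.1 l = c l • y := by
    intro c l
    rw [hL, map_sum]
    have h1 : ∀ j, e (c j • splitInc e j y) = (0, Pi.single j (c j • y), 0) := by
      intro j
      rw [← map_smul]
      exact LinearEquiv.apply_symm_apply _ _
    rw [Finset.sum_congr rfl fun j _ => h1 j, Prod.snd_sum, Prod.fst_sum, Finset.sum_apply,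
      Finset.sum_eq_single l]
    · change (Pi.single l (c l • y) : Fin m → B) l = c l • y
      rw [Pi.single_eq_same]
    · intro j _ hj
      change (Pi.single j (c j • y) : Fin m → B) l = 0
      rw [Pi.single_eq_of_ne (Ne.symm hj)]
    · intro hm
      exact absurd (Finset.mem_univ l) hm
  have hinj : Function.Injective L := by
    intro c c' hcc
    funext l
    have h1 := hk c l
    rw [hcc, hk c' l] at h1
    exact (smul_left_injective K hy0 h1).symm
  have hrange : LinearMap.range L ≤ (Module.End.maxGenEigenspace FV (q * a)).map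
      (FV - algebraMap K (Module.End K V) (q * a)) := by
    rintro _ ⟨c, rfl⟩
    rw [hL]
    exact Submodule.sum_mem _ fun j _ => Submodule.smul_mem _ _ (hmem j)
  have h1 := Submodule.finrank_mono hrange
  rw [LinearMap.finrank_range_of_inj hinj, Module.finrank_fin_fun] at h1
  exact absurd h1 (not_le.2 hd)

end Alg

variable {K : Type u} [Field K] (C : CompleteCohomology.{u, v, w} K)

/-- The defect of the eigenvalue `a` on `H^i(X)`. -/
noncomputable def frobDefect (X : C.Obj) (i : ℤ) (a : K) : ℕ := jordanDefect (C.D.F X i) a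

/-- The eigenvalue `a` of the Frobenius endomorphism on `H^i(X)` is semisimple. -/
def FrobEigenSemisimple (X : C.Obj) (i : ℤ) (a : K) : Prop := EigenSemisimple (C.D.F X i) a

/-- On the varieties of dimension `n` the defect of the eigenvalue `a` on `H^i` is `o(b_i)`. -/
def DefectSublinear (n : ℕ) (i : ℤ) (a : K) : Prop :=
  ∀ ε : ℝ, 0 < ε → ∃ B : ℕ, ∀ Y : C.Obj, C.dim Y = n → B ≤ C.b Y i →
    (frobDefect C Y i a : ℝ) ≤ ε * C.b Y i

theorem surface_one (X : C.Obj) (i : ℤ) (a : K) (N : ℕ)
    (h : frobDefect C (C.times X N) (i + 2) (C.q * a) ≤ N) : FrobEigenSemisimple C X i a :=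
  eigenSemisimple_of_splits C.q_ne (C.kunneth X N i) (Nat.lt_succ_of_le h)

theorem surface_sublinear {n : ℕ} {i : ℤ} {a : K} (h : DefectSublinear C (n + 2) (i + 2) (C.q * a))
    (X : C.Obj) (hX : C.dim X = n) : FrobEigenSemisimple C X i a := by
  by_cases hb : C.b X i = 0
  · intro x _
    have : Subsingleton (C.D.H X i) := Module.finrank_zero_iff.1 hb
    rw [Subsingleton.elim x 0]
    exact Submodule.zero_mem _
  set β : ℝ := C.b X (i + 2) + C.b X (i - 2) + C.b X i with hβ
  have hi : (1 : ℝ) ≤ C.b X i := by exact_mod_cast Nat.one_le_iff_ne_zero.2 hb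
  have h1 : (0 : ℝ) ≤ C.b X (i + 2) := Nat.cast_nonneg _
  have h2 : (0 : ℝ) ≤ C.b X (i - 2) := Nat.cast_nonneg _
  have hβ0 : 0 < β := by rw [hβ]; linarith
  obtain ⟨B, hB⟩ := h (1 / (2 * β)) (by positivity)
  have hle : B ≤ C.b (C.times X B) (i + 2) := by
    rw [C.b_times]
    have : 1 ≤ C.b X i := Nat.one_le_iff_ne_zero.2 hb
    nlinarith
  refine surface_one C X i a B ?_
  have h4 : (0 : ℝ) ≤ (B : ℝ) := Nat.cast_nonneg _
  have h3 : ((C.b (C.times X B) (i + 2) : ℕ) : ℝ) ≤ (B + 1) * β := by
    rw [C.b_times, hβ]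
    push_cast
    nlinarith [mul_nonneg h4 h1, mul_nonneg h4 h2]
  have h5 := hB (C.times X B) (by rw [C.dim_times, hX]) hle
  have h6 : (frobDefect C (C.times X B) (i + 2) (C.q * a) : ℝ) < B + 1 := by
    calc (frobDefect C (C.times X B) (i + 2) (C.q * a) : ℝ)
        ≤ 1 / (2 * β) * (C.b (C.times X B) (i + 2) : ℝ) := h5
      _ ≤ 1 / (2 * β) * ((B + 1) * β) := mul_le_mul_of_nonneg_left h3 (by positivity)
      _ = (B + 1) / 2 := by field_simp
      _ < B + 1 := by linarith
  exact Nat.lt_succ_iff.1 (by exact_mod_cast h6)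

end Pool.Agent.V11106.SH
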